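import Pool.Agent.Work.MP_bde882_al_h40.Mv

/-!
Widening of packed numbers: from lanes of 3 bits to lanes of `W` bits, by log steps.
-/

set_option autoImplicit false

namespace Pool.Agent.Work.MP_bde882_al.H87

open Finset Pool.Agent.Work.MP_bde882_al.Pk

/-- the mask of the step `j`: in each group of `2 ^ (j + 1)` lanes of `W` bits the lowest
`3 * 2 ^ j` bits; `2 ^ 12` lanes in all -/
def wmask (W j : ℕ) : ℕ :=
  Nat.div (Nat.mul (Nat.sub (Nat.pow 2 (Nat.mul 3 (Nat.pow 2 j))) 1)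
    (Nat.sub (Nat.pow 2 (Nat.mul W 4096)) 1))
    (Nat.sub (Nat.pow 2 (Nat.mul W (Nat.pow 2 (Nat.succ j)))) 1)

/-- one step of the widening -/
def wstep (W j x : ℕ) : ℕ :=
  Nat.add (Nat.land x (wmask W j))
    (Nat.shiftLeft (Nat.land (Nat.shiftRight x (Nat.mul 3 (Nat.pow 2 j))) (wmask W j))
      (Nat.mul W (Nat.pow 2 j)))

theorem shl_eq (a b : ℕ) : Nat.shiftLeft a b = a * 2 ^ b := Nat.shiftLeft_eq a b

theorem shr_eq (a b : ℕ) : Nat.shiftRight a b = a / 2 ^ b := Nat.shiftRight_eq_div_pow a b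

theorem land_eq (a b : ℕ) : Nat.land a (Nat.sub (Nat.pow 2 b) 1) = a % 2 ^ b :=
  Nat.and_two_pow_sub_one_eq_mod a b

/-- widening of a number of `4096` lanes of 3 bits to lanes of `W` bits -/
def widen (W x : ℕ) : ℕ :=
  wstep W 0 (wstep W 1 (wstep W 2 (wstep W 3 (wstep W 4 (wstep W 5 (wstep W 6 (wstep W 7
    (wstep W 8 (wstep W 9 (wstep W 10 (wstep W 11 (Nat.land x (Nat.sub (Nat.pow 2 12288) 1)))))))))))))

/-- the intermediate form: groups of `2 ^ j` lanes of 3 bits at distance `2 ^ j` lanes of `W` bits -/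
def lv (W : ℕ) (D : ℕ → ℕ) (j m : ℕ) : ℕ :=
  lanes (W * 2 ^ j) (fun g => lanes 3 (fun i => D (2 ^ j * g + i)) (2 ^ j)) m

theorem lanes_pair (U : ℕ) (a b : ℕ → ℕ) (n : ℕ) :
    lanes (2 * U) (fun g => a g + 2 ^ U * b g) n
      = lanes U (fun g => if g % 2 = 0 then a (g / 2) else b (g / 2)) (2 * n) := by
  induction n with
  | zero => simp [lanes]
  | succ n ih =>
    rw [lanes_succ, ih, show 2 * (n + 1) = 2 * n + 1 + 1 by ring, lanes_succ, lanes_succ]
    have e1 : (2 * n) % 2 = 0 := by omega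
    have e2 : (2 * n + 1) % 2 = 1 := by omega
    have e3 : 2 * n / 2 = n := by omega
    have e4 : (2 * n + 1) / 2 = n := by omega
    rw [e1, e2, e3, e4]
    simp only [if_true, one_ne_zero, if_false]
    have e5 : 2 ^ (U * (2 * n + 1)) = 2 ^ U * 2 ^ (2 * U * n) := by
      rw [← pow_add]
      congr 1
      ring
    have e6 : U * (2 * n) = 2 * U * n := by ring
    rw [e5, e6]
    ring

theorem wmask_eq (W j m : ℕ) (hW : 0 < W) (hm : 2 ^ (j + 1) * m = 4096) :
    wmask W j = lanes (W * 2 ^ (j + 1)) (fun _ => 2 ^ (3 * 2 ^ j) - 1) m := by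
  change (2 ^ (3 * 2 ^ j) - 1) * (2 ^ (W * 4096) - 1) / (2 ^ (W * 2 ^ (j + 1)) - 1) = _
  have h1 := lanes_const_eq (W * 2 ^ (j + 1)) (2 ^ (3 * 2 ^ j) - 1) m
  have h2 : W * 2 ^ (j + 1) * m = W * 4096 := by rw [mul_assoc, hm]
  rw [h2] at h1
  rw [← h1]
  refine Nat.mul_div_cancel _ ?_
  have h3 : 1 < 2 ^ (W * 2 ^ (j + 1)) := Nat.one_lt_two_pow (by positivity)
  omega

theorem wstep_lv (W : ℕ) (hW : 3 ≤ W) (D : ℕ → ℕ) (hD : ∀ p, D p < 8) (j m : ℕ)
    (hm : 2 ^ (j + 1) * m = 4096) :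
    wstep W j (lv W D (j + 1) m) = lv W D j (2 * m) := by
  set s := 3 * 2 ^ j with hs
  set T := W * 2 ^ (j + 1) with hT
  have hsT : 2 * s ≤ T := by
    rw [hs, hT, pow_succ]
    calc 2 * (3 * 2 ^ j) = 3 * (2 ^ j * 2) := by ring
      _ ≤ W * (2 ^ j * 2) := Nat.mul_le_mul_right _ hW
  -- low and high halves of a group
  set lo : ℕ → ℕ := fun g => lanes 3 (fun i => D (2 ^ (j + 1) * g + i)) (2 ^ j) with hlo
  set hi : ℕ → ℕ := fun g => lanes 3 (fun i => D (2 ^ (j + 1) * g + 2 ^ j + i)) (2 ^ j) with hhi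
  have hlo' : ∀ g, lo g < 2 ^ s := fun g => lanes_lt 3 _ _ (fun i _ => hD _)
  have hhi' : ∀ g, hi g < 2 ^ s := fun g => lanes_lt 3 _ _ (fun i _ => hD _)
  have hc : ∀ g, lanes 3 (fun i => D (2 ^ (j + 1) * g + i)) (2 ^ (j + 1)) = lo g + 2 ^ s * hi g := by
    intro g
    rw [pow_succ 2 j, mul_two, lanes_split]
    simp only [hlo, hhi, hs, pow_succ 2 j, mul_two, add_assoc]
  have hx : lv W D (j + 1) m = lanes T (fun g => lo g + 2 ^ s * hi g) m := by
    unfold lv
    exact lanes_congr _ (fun g _ => hc g)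
  have hclt : ∀ g, lo g + 2 ^ s * hi g < 2 ^ (2 * s) := by
    intro g
    have h1 := hlo' g
    have h2 : 2 ^ s * (hi g + 1) ≤ 2 ^ s * 2 ^ s := Nat.mul_le_mul_left _ (hhi' g)
    rw [two_mul, pow_add]
    rw [Nat.mul_succ] at h2
    omega
  have hcT : ∀ g, lo g + 2 ^ s * hi g < 2 ^ T :=
    fun g => lt_of_lt_of_le (hclt g) (Nat.pow_le_pow_right (by norm_num) hsT)
  have hmask := wmask_eq W j m (by omega) hm
  have hmT : 2 ^ s - 1 < 2 ^ T := by
    have h3 : 1 ≤ 2 ^ s := Nat.one_le_two_pow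
    have h4 : 2 ^ s ≤ 2 ^ T := Nat.pow_le_pow_right (by norm_num) (by omega)
    omega
  -- the low part
  have hA : lv W D (j + 1) m &&& wmask W j = lanes T lo m := by
    rw [hx, hmask, land_lanes _ _ _ _ (fun g _ => hcT g) (fun _ _ => hmT)]
    refine lanes_congr _ (fun g _ => ?_)
    rw [land_low, Nat.add_mul_mod_self_left, Nat.mod_eq_of_lt (hlo' g)]
  -- the high part
  have hB : (lv W D (j + 1) m / 2 ^ s) &&& wmask W j = lanes T hi m := by
    have hM : wmask W j * 2 ^ s = lanes T (fun _ => 2 ^ (2 * s) - 2 ^ s) m := by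
      rw [hmask, lanes_mul]
      refine lanes_congr _ (fun g _ => ?_)
      rw [two_mul, pow_add, Nat.sub_mul, one_mul]
    rw [shift_land, hM, hx, land_lanes _ _ _ _ (fun g _ => hcT g)
      (fun _ _ => lt_of_lt_of_le (Nat.sub_lt (by positivity) (by positivity))
        (Nat.pow_le_pow_right (by norm_num) hsT))]
    rw [lanes_congr T (b := fun g => 2 ^ s * hi g) (fun g _ => by
      rw [land_high (2 * s) s _ (by omega) (hclt g), Nat.add_mul_div_left _ _ (by positivity),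
        Nat.div_eq_of_lt (hlo' g), zero_add])]
    rw [lanes_shift _ _ _ _ (fun g _ => dvd_mul_right _ _)]
    refine lanes_congr _ (fun g _ => ?_)
    exact Nat.mul_div_cancel_left _ (by positivity)
  have hdef : wstep W j (lv W D (j + 1) m) = (lv W D (j + 1) m &&& wmask W j)
    + ((lv W D (j + 1) m / 2 ^ (3 * 2 ^ j)) &&& wmask W j) * 2 ^ (W * 2 ^ j) := by
    unfold wstep
    rw [shl_eq, shr_eq]
    rfl
  rw [hdef]
  rw [hA, ← hs, hB, lanes_mul, lanes_add]
  have h5 : T = 2 * (W * 2 ^ j) := by rw [hT, pow_succ]; ring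
  have h6 : lanes T (fun g => lo g + hi g * 2 ^ (W * 2 ^ j)) m
      = lanes (2 * (W * 2 ^ j)) (fun g => lo g + 2 ^ (W * 2 ^ j) * hi g) m := by
    rw [h5]
    exact lanes_congr _ (fun g _ => by ring)
  rw [h6, lanes_pair]
  unfold lv
  refine lanes_congr _ (fun g _ => ?_)
  have hg : g = 2 * (g / 2) + g % 2 := by omega
  rcases Nat.mod_two_eq_zero_or_one g with h | h
  · rw [if_pos h]
    simp only [hlo]
    refine lanes_congr _ (fun i _ => ?_)
    congr 1
    have : 2 ^ j * g = 2 ^ j * (2 * (g / 2)) := by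
      conv_lhs => rw [hg, h]
      simp
    rw [this, pow_succ]
    ring
  · rw [if_neg (by omega)]
    simp only [hhi]
    refine lanes_congr _ (fun i _ => ?_)
    congr 1
    have : 2 ^ j * g = 2 ^ j * (2 * (g / 2) + 1) := by
      conv_lhs => rw [hg, h]
    rw [this, pow_succ]
    ring

theorem lane_lt_eight (x p : ℕ) : lane 3 x p < 8 := lane_lt 3 x p

/-- **Widening.** -/
theorem widen_spec (W x : ℕ) (hW : 3 ≤ W) : widen W x = lanes W (lane 3 x) 4096 := by
  have h0 : Nat.land x (Nat.sub (Nat.pow 2 12288) 1) = lv W (lane 3 x) 12 1 := by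
    rw [land_eq]
    unfold lv
    have h1 := lanes_lane_mod 3 x (2 ^ 12)
    have h2 : (3 : ℕ) * 2 ^ 12 = 12288 := by norm_num
    rw [h2] at h1
    rw [← h1, lanes_succ, lanes_zero]
    simp
  unfold widen
  have hD : ∀ p, lane 3 x p < 8 := lane_lt_eight x
  rw [h0, wstep_lv W hW _ hD 11 1 (by norm_num), wstep_lv W hW _ hD 10 (2 * 1) (by norm_num),
    wstep_lv W hW _ hD 9 (2 * (2 * 1)) (by norm_num),
    wstep_lv W hW _ hD 8 (2 * (2 * (2 * 1))) (by norm_num),
    wstep_lv W hW _ hD 7 (2 * (2 * (2 * (2 * 1)))) (by norm_num),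
    wstep_lv W hW _ hD 6 (2 * (2 * (2 * (2 * (2 * 1))))) (by norm_num),
    wstep_lv W hW _ hD 5 (2 * (2 * (2 * (2 * (2 * (2 * 1)))))) (by norm_num),
    wstep_lv W hW _ hD 4 (2 * (2 * (2 * (2 * (2 * (2 * (2 * 1))))))) (by norm_num),
    wstep_lv W hW _ hD 3 (2 * (2 * (2 * (2 * (2 * (2 * (2 * (2 * 1)))))))) (by norm_num),
    wstep_lv W hW _ hD 2 (2 * (2 * (2 * (2 * (2 * (2 * (2 * (2 * (2 * 1))))))))) (by norm_num),
    wstep_lv W hW _ hD 1 (2 * (2 * (2 * (2 * (2 * (2 * (2 * (2 * (2 * (2 * 1))))))))))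
      (by norm_num),
    wstep_lv W hW _ hD 0 (2 * (2 * (2 * (2 * (2 * (2 * (2 * (2 * (2 * (2 * (2 * 1)))))))))))
      (by norm_num)]
  unfold lv
  have e : 2 * (2 * (2 * (2 * (2 * (2 * (2 * (2 * (2 * (2 * (2 * (2 * 1))))))))))) = 4096 := by
    norm_num
  rw [e, pow_zero, mul_one]
  refine lanes_congr _ (fun g _ => ?_)
  have h1 : ∀ f : ℕ → ℕ, lanes 3 f 1 = f 0 := by
    intro f
    simp [lanes]
  rw [h1]
  simp

/-- widening of a list of pieces of `4096` lanes, low piece first -/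
def wide (W : ℕ) (l : List ℕ) : ℕ :=
  @List.rec ℕ (fun _ => ℕ) 0
    (fun p _ ih => Nat.add (widen W p) (Nat.shiftLeft ih (Nat.mul W 4096))) l

theorem wide_nil (W : ℕ) : wide W [] = 0 := rfl

theorem wide_cons (W p : ℕ) (l : List ℕ) :
    wide W (p :: l) = widen W p + wide W l * 2 ^ (W * 4096) := by
  change widen W p + Nat.shiftLeft (wide W l) (W * 4096) = _
  rw [shl_eq]

/-- the digits of a list of pieces -/
def dig (l : List ℕ) (p : ℕ) : ℕ := lane 3 (l.getD (p / 4096) 0) (p % 4096)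

theorem dig_lt (l : List ℕ) (p : ℕ) : dig l p < 8 := lane_lt_eight _ _

theorem dig_nil (p : ℕ) : dig [] p = 0 := by simp [dig, lane]

theorem dig_cons_lt (x : ℕ) (l : List ℕ) (p : ℕ) (hp : p < 4096) : dig (x :: l) p = lane 3 x p := by
  unfold dig
  rw [Nat.div_eq_of_lt hp, Nat.mod_eq_of_lt hp]
  rfl

theorem dig_cons_ge (x : ℕ) (l : List ℕ) (p : ℕ) : dig (x :: l) (4096 + p) = dig l p := by
  unfold dig
  have h1 : (4096 + p) / 4096 = p / 4096 + 1 := by omega
  have h2 : (4096 + p) % 4096 = p % 4096 := by omega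
  rw [h1, h2]
  rfl

theorem wide_spec (W : ℕ) (hW : 3 ≤ W) (l : List ℕ) :
    wide W l = lanes W (dig l) (4096 * l.length) := by
  induction l with
  | nil => rw [wide_nil]; simp [lanes]
  | cons x l ih =>
    have h0 : 4096 * (x :: l).length = 4096 + 4096 * l.length := by
      rw [List.length_cons, Nat.mul_succ, Nat.add_comm]
    have h1 := lanes_split W (dig (x :: l)) 4096 (4096 * l.length)
    have h2 : lanes W (dig (x :: l)) 4096 = lanes W (lane 3 x) 4096 :=
      lanes_congr _ (fun p hp => dig_cons_lt x l p hp)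
    have h3 : lanes W (fun i => dig (x :: l) (4096 + i)) (4096 * l.length)
        = lanes W (dig l) (4096 * l.length) := lanes_congr _ (fun p _ => dig_cons_ge x l p)
    rw [h0, h1, h2, h3, wide_cons, ih, widen_spec W x hW, Nat.mul_comm (2 ^ (W * 4096))]

theorem dig_ge (l : List ℕ) (p : ℕ) (hp : 4096 * l.length ≤ p) : dig l p = 0 := by
  unfold dig
  rw [List.getD_eq_default _ _ (by omega)]
  simp [lane]

/-- a cut of a widened list: `n` lanes from the position `off` -/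
def wcut (W : ℕ) (l : List ℕ) (off n : ℕ) : ℕ :=
  Nat.land (Nat.shiftRight (wide W l) (Nat.mul W off)) (Nat.sub (Nat.pow 2 (Nat.mul W n)) 1)

theorem lanes_extend (W : ℕ) (a : ℕ → ℕ) (n m : ℕ) (h : ∀ p, n ≤ p → a p = 0) :
    lanes W a (n + m) = lanes W a n := by
  rw [lanes_split, lanes_eq_zero_of W _ m (fun i _ => h _ (by omega)), mul_zero, add_zero]

theorem wcut_spec (W : ℕ) (hW : 3 ≤ W) (l : List ℕ) (off n : ℕ) :
    wcut W l off n = lanes W (fun p => dig l (off + p)) n := by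
  have hdef : wcut W l off n = wide W l / 2 ^ (W * off) % 2 ^ (W * n) := by
    unfold wcut
    rw [land_eq, shr_eq]
    rfl
  rw [hdef]
  have hd : ∀ p, dig l p < 2 ^ W := fun p =>
    lt_of_lt_of_le (dig_lt l p) (by
      calc 8 = 2 ^ 3 := by norm_num
        _ ≤ 2 ^ W := Nat.pow_le_pow_right (by norm_num) hW)
  rw [wide_spec W hW l, ← lanes_extend W (dig l) _ (off + n) (fun p hp => dig_ge l p hp)]
  have e : 4096 * l.length + (off + n) = off + (n + 4096 * l.length) := by ring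
  rw [e, lanes_split, Nat.add_mul_div_left _ _ (by positivity),
    Nat.div_eq_of_lt (lanes_lt W _ _ (fun i _ => hd i)), zero_add, lanes_split,
    Nat.add_mul_mod_self_left, Nat.mod_eq_of_lt (lanes_lt W _ _ (fun i _ => hd _))]

end Pool.Agent.Work.MP_bde882_al.H87
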