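import Pool.Agent.Work.MP_bde882_al_h87.FullBlock
import Pool.Agent.Work.MP_bde882_al_h87.Widen
import Pool.Agent.Work.MP_bde882_al_h40.Mv2
import Pool.Agent.Work.MP_bde882_al_h62.Prog
import Pool.Agent.Work.MP_bde882_al_tab.Tab1a
import Pool.Agent.Work.MP_bde882_al_tab.Tab1b
import Pool.Agent.Work.MP_bde882_al_tab.Tab1c
import Pool.Agent.Work.MP_bde882_al_tab.TabG

/-!
The concrete half model, read off from the tables.
-/

set_option autoImplicit false

namespace Pool.Agent.Work.MP_bde882_al.H87

open Finset Pool.Agent.Work.MP_bde882_al.Pk Pool.Agent.Work.MP_bde882_al.Pg62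

/-- the entry in row `r` and column `t` of a block table -/
noncomputable def ent (b : Blk) (r t : ℕ) : ZMod 7 :=
  Blk.rec (motive := fun _ => ZMod 7) 0
    (fun K N off ch => ∑ i ∈ range N, if slot K N i = r then
      ((dig ch (off + (K * i + (K - 1) - t)) : ℕ) : ZMod 7) else 0) b

theorem ent_no (r t : ℕ) : ent Blk.no r t = 0 := rfl

theorem ent_mk (K N off : ℕ) (ch : List ℕ) (r t : ℕ) : ent (Blk.mk K N off ch) r t
    = ∑ i ∈ range N, if slot K N i = r then
      ((dig ch (off + (K * i + (K - 1) - t)) : ℕ) : ZMod 7) else 0 := rfl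

/-- the entry at a slot -/
theorem ent_slot (K N off : ℕ) (ch : List ℕ) (hc : Nat.Coprime K N) (i : ℕ) (hi : i < N) (t : ℕ) :
    ent (Blk.mk K N off ch) (slot K N i) t
      = ((dig ch (off + (K * i + (K - 1) - t)) : ℕ) : ZMod 7) := by
  rw [ent_mk, Finset.sum_eq_single_of_mem i (mem_range.2 hi), if_pos rfl]
  intro j hj hne
  rw [if_neg]
  intro h
  exact hne (slot_inj hc (by simpa using hj) (by simpa using hi) h)

/-- rows outside the table are zero -/
theorem ent_ge (K N off : ℕ) (ch : List ℕ) (r t : ℕ) (hr : N ≤ r) :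
    ent (Blk.mk K N off ch) r t = 0 := by
  rw [ent_mk]
  refine Finset.sum_eq_zero (fun i hi => ?_)
  rw [mem_range] at hi
  rw [if_neg]
  intro h
  have : slot K N i < N := slot_lt (by omega)
  omega

/-- the dimension of a block -/
noncomputable def dm (β : ℕ) : ℕ := Nat.land (Nat.shiftRight Tab.dims (Nat.mul 16 β)) 65535

/-- the tables of the letters -/
noncomputable def tX (i : Fin 3) : Op := if i = 0 then Tab.T1_0 else if i = 1 then Tab.T1_1 else Tab.T1_2

/-- **The half model.** -/
noncomputable def HH : HM where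
  d := dm
  x := fun i β r t => ent (find β (trO (tX i))) r t
  g := fun β r t => ent (find β Tab.TG) r t

theorem HH_d (β : ℕ) : HH.d β = dm β := rfl

theorem HH_x (i : Fin 3) (β r t : ℕ) : HH.x i β r t = ent (find β (trO (tX i))) r t := rfl

theorem HH_g (β r t : ℕ) : HH.g β r t = ent (find β Tab.TG) r t := rfl

/-- the dimensions of the full model -/
theorem dm_symm : ∀ β < 343, dm (342 - β) = dm β := by
  decide +kernel

theorem DH_HH (β : ℕ) (hβ : β < 343) : DH HH β = dm β := by
  unfold DH
  rw [HH_d, HH_d, dm_symm β hβ, ite_self]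

end Pool.Agent.Work.MP_bde882_al.H87
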