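import Pool.Agent.Work.MP_bde882_al_h87.Deriv
import Pool.Agent.Work.MP_bde882_al_h64.OpsE

/-!
The full model in block coordinates: blocks of degree `≤ 9` as in the half model, blocks of degree
`> 9` dual to the complementary block.
-/

set_option autoImplicit false

namespace Pool.Agent.Work.MP_bde882_al.H87

open Finset

open Pool.Agent.Work.MP_bde882_al.Red (Fn Xop Xop_apply dsum Eop IF mem_IF)

variable (H : HM)

/-- dimension of a block of the full model -/
def DH (β : ℕ) : ℕ := if dB β ≤ 9 then H.d β else H.d (342 - β)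

/-- matrices of the letters on the full model: `xh i β k m`, `β` the source block -/
def xh (i : Fin 3) (β k m : ℕ) : ZMod 7 :=
  if dB β < 9 then H.x i β k m
  else if dB β = 9 then ∑ l ∈ range (H.d (342 - β)), H.x i (342 - β - sh i) l k * H.g β l m
  else H.x i (342 - β - sh i) m k

/-- condition for a letter to hit a coordinate of the full model -/
def cH (i : Fin 3) (τ k : ℕ) : Bool :=
  decide (τ < 343) && decide (0 < dg i τ) && decide (k < DH H τ)

/-- the letters of the full model -/
def XH (i : Fin 3) : HV →ₗ[ZMod 7] HV := bop (DH H) (cH H i) (fun τ => τ - sh i) (xh H i)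

theorem XH_apply (i : Fin 3) (a : HV) (τ k : ℕ) : XH H i a τ k
    = if τ < 343 ∧ 0 < dg i τ ∧ k < DH H τ then
        ∑ m ∈ range (DH H (τ - sh i)), xh H i (τ - sh i) k m * a (τ - sh i) m else 0 := by
  unfold XH
  rw [bop_apply]
  unfold cH mapp
  by_cases h : τ < 343 ∧ 0 < dg i τ ∧ k < DH H τ
  · rw [if_pos h, if_pos (by simp [h.1, h.2.1, h.2.2])]
  · rw [if_neg h, if_neg]
    simp only [Bool.and_eq_true, decide_eq_true_eq]
    tauto

theorem XW_apply (i : Fin 3) (a : HV) (τ k : ℕ) : XW H i a τ k
    = if (τ < 343 ∧ 0 < dg i τ ∧ dB τ ≤ 9) ∧ k < H.d τ then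
        ∑ m ∈ range (H.d (τ - sh i)), H.x i (τ - sh i) k m * a (τ - sh i) m else 0 := by
  unfold XW
  rw [bop_apply]
  unfold cX mapp
  by_cases h : (τ < 343 ∧ 0 < dg i τ ∧ dB τ ≤ 9) ∧ k < H.d τ
  · rw [if_pos h, if_pos (by simp [h.1.1, h.1.2.1, h.1.2.2, h.2])]
  · rw [if_neg h, if_neg]
    simp only [Bool.and_eq_true, decide_eq_true_eq]
    tauto

theorem dB_facts : ∀ τ < 343, ∀ i : Fin 3, 0 < dg i τ → dB τ = dB (τ - sh i) + 1 := by
  decide +kernel

theorem dg_up : ∀ σ < 343, ∀ i : Fin 3, dg i σ < 6 → σ + sh i < 343 ∧ 0 < dg i (σ + sh i) := by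
  decide +kernel

theorem dg_down : ∀ τ < 343, ∀ i : Fin 3, 0 < dg i τ → dg i (τ - sh i) < 6 := by
  decide +kernel

theorem dB_compl : ∀ τ < 343, dB (342 - τ) + dB τ = 18 := by
  decide +kernel

/-- reindexing of a sum over targets as a sum over sources -/
theorem sum_shift {R : Type*} [AddCommMonoid R] (i : Fin 3) (f : ℕ → ℕ → R) :
    ∑ τ ∈ range 343, (if 0 < dg i τ then f τ (τ - sh i) else 0)
      = ∑ σ ∈ range 343, (if dg i σ < 6 then f (σ + sh i) σ else 0) := by
  rw [← Finset.sum_filter, ← Finset.sum_filter]
  refine Finset.sum_bij' (fun τ _ => τ - sh i) (fun σ _ => σ + sh i) ?_ ?_ ?_ ?_ ?_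
  · intro τ hτ
    rw [mem_filter, mem_range] at hτ ⊢
    exact ⟨by omega, dg_down τ hτ.1 i hτ.2⟩
  · intro σ hσ
    rw [mem_filter, mem_range] at hσ ⊢
    exact dg_up σ hσ.1 i hσ.2
  · intro τ hτ
    rw [mem_filter, mem_range] at hτ
    have := (dg_facts τ hτ.1 i hτ.2).1
    omega
  · intro σ _
    omega
  · intro τ hτ
    rw [mem_filter, mem_range] at hτ
    have h1 := (dg_facts τ hτ.1 i hτ.2).1
    have h2 : τ - sh i + sh i = τ := by omega
    rw [h2]

/-- the dual part of a vector of the full model -/
def dualPart : HV →ₗ[ZMod 7] Module.Dual (ZMod 7) HV :=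
  LinearMap.mk₂ (ZMod 7)
    (fun a b => ∑ τ ∈ range 343, if 9 < dB τ then
      ∑ k ∈ range (H.d (342 - τ)), a τ k * b (342 - τ) k else 0)
    (by
      intro a a' b
      rw [← sum_add_distrib]
      refine sum_congr rfl (fun τ _ => ?_)
      split_ifs
      · rw [← sum_add_distrib]
        exact sum_congr rfl (fun k _ => by simp only [Pi.add_apply]; ring)
      · simp)
    (by
      intro c a b
      rw [smul_eq_mul, mul_sum]
      refine sum_congr rfl (fun τ _ => ?_)
      split_ifs
      · rw [mul_sum]
        exact sum_congr rfl (fun k _ => by simp only [Pi.smul_apply, smul_eq_mul]; ring)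
      · simp)
    (by
      intro a b b'
      rw [← sum_add_distrib]
      refine sum_congr rfl (fun τ _ => ?_)
      split_ifs
      · rw [← sum_add_distrib]
        exact sum_congr rfl (fun k _ => by simp only [Pi.add_apply]; ring)
      · simp)
    (by
      intro c a b
      rw [smul_eq_mul, mul_sum]
      refine sum_congr rfl (fun τ _ => ?_)
      split_ifs
      · rw [mul_sum]
        exact sum_congr rfl (fun k _ => by simp only [Pi.smul_apply, smul_eq_mul]; ring)
      · simp)

theorem dualPart_apply (a b : HV) : dualPart H a b = ∑ τ ∈ range 343, if 9 < dB τ then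
      ∑ k ∈ range (H.d (342 - τ)), a τ k * b (342 - τ) k else 0 := rfl

/-- the low part of a vector of the full model -/
def lowPart : HV →ₗ[ZMod 7] HV where
  toFun a τ k := if dB τ ≤ 9 then a τ k else 0
  map_add' a b := by
    funext τ k
    simp only [Pi.add_apply]
    split_ifs
    · rfl
    · simp
  map_smul' c a := by
    funext τ k
    simp only [Pi.smul_apply, RingHom.id_apply]
    split_ifs
    · rfl
    · simp

/-- from block coordinates to the abstract full model -/
def Th : HV →ₗ[ZMod 7] Full (ZMod 7) HV := LinearMap.prod lowPart (dualPart H)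

theorem Th_XH (i : Fin 3) (a : HV) : Th H (XH H i a) = XF (XW H) (BW H) i (Th H a) := by
  refine Prod.ext ?_ ?_
  · rw [XF_fst]
    change lowPart (XH H i a) = XW H i (lowPart a)
    funext τ k
    rw [XW_apply]
    change (if dB τ ≤ 9 then XH H i a τ k else 0) = _
    by_cases h9 : dB τ ≤ 9
    · rw [if_pos h9, XH_apply]
      have hD : DH H τ = H.d τ := by unfold DH; rw [if_pos h9]
      by_cases hc : τ < 343 ∧ 0 < dg i τ ∧ k < DH H τ
      · rw [if_pos hc, if_pos ⟨⟨hc.1, hc.2.1, h9⟩, by rw [← hD]; exact hc.2.2⟩]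
        have hs := dB_facts τ hc.1 i hc.2.1
        have h8 : dB (τ - sh i) < 9 := by omega
        have hDs : DH H (τ - sh i) = H.d (τ - sh i) := by unfold DH; rw [if_pos (by omega)]
        rw [hDs]
        refine sum_congr rfl (fun m _ => ?_)
        unfold xh
        rw [if_pos h8]
        change _ = _ * (if dB (τ - sh i) ≤ 9 then a (τ - sh i) m else 0)
        rw [if_pos (by omega)]
      · rw [if_neg hc, if_neg]
        rintro ⟨⟨h1, h2, -⟩, h3⟩
        exact hc ⟨h1, h2, by rw [hD]; exact h3⟩
    · rw [if_neg h9, if_neg (fun h => h9 h.1.2.2)]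
  · apply LinearMap.ext
    intro b
    rw [XF_snd]
    change dualPart H (XH H i a) b = dualPart H a (XW H i b) + BW H (XW H i b) (lowPart a)
    rw [dualPart_apply, dualPart_apply, BW_apply, Finset.sum_filter, ← sum_add_distrib]
    -- left side as a sum over sources
    have hL : ∀ τ ∈ range 343, (if 9 < dB τ then
        ∑ k ∈ range (H.d (342 - τ)), XH H i a τ k * b (342 - τ) k else 0)
        = if 0 < dg i τ then (if 9 < dB τ then ∑ k ∈ range (H.d (342 - τ)),
            (∑ m ∈ range (DH H (τ - sh i)), xh H i (τ - sh i) k m * a (τ - sh i) m)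
              * b (342 - τ) k else 0) else 0 := by
      intro τ hτ
      rw [mem_range] at hτ
      by_cases h9 : 9 < dB τ
      · rw [if_pos h9, if_pos h9]
        by_cases hi : 0 < dg i τ
        · rw [if_pos hi]
          refine sum_congr rfl (fun k hk => ?_)
          rw [XH_apply, if_pos ⟨hτ, hi, by unfold DH; rw [if_neg (by omega)]; exact mem_range.1 hk⟩]
        · rw [if_neg hi]
          refine sum_eq_zero (fun k _ => ?_)
          rw [XH_apply, if_neg (fun h => hi h.2.1), zero_mul]
      · rw [if_neg h9, if_neg h9]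
        split_ifs <;> rfl
    rw [sum_congr rfl hL, sum_shift i (fun τ σ => if 9 < dB τ then ∑ k ∈ range (H.d (342 - τ)),
            (∑ m ∈ range (DH H σ), xh H i σ k m * a σ m) * b (342 - τ) k else 0)]
    refine sum_congr rfl (fun σ hσ => ?_)
    rw [mem_range] at hσ
    have hcomp := dg_compl σ hσ i
    have hBcomp := dB_compl σ hσ
    by_cases hi : dg i σ < 6
    · rw [if_pos hi]
      obtain ⟨hup, hdg⟩ := dg_up σ hσ i hi
      have hBs := dB_facts (σ + sh i) hup i hdg
      rw [Nat.add_sub_cancel] at hBs
      have hcut : 342 - (σ + sh i) = 342 - σ - sh i := by omega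
      have hpos : 0 < dg i (342 - σ) := by omega
      by_cases h9 : dB σ = 9
      · -- the middle
        rw [if_pos (by omega), if_neg (by omega), if_pos h9, zero_add, hcut]
        have hlow : ∀ m, lowPart a σ m = a σ m := fun m => if_pos (by omega)
        have hDσ : DH H σ = H.d σ := by unfold DH; rw [if_pos (by omega)]
        have hR : ∀ l ∈ range (H.d (342 - σ)), ∀ m ∈ range (H.d σ),
            H.g σ l m * (XW H i b (342 - σ) l * lowPart a σ m)
            = ∑ k ∈ range (H.d (342 - σ - sh i)),
              H.x i (342 - σ - sh i) l k * H.g σ l m * a σ m * b (342 - σ - sh i) k := by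
          intro l hl m _
          rw [hlow, XW_apply, if_pos ⟨⟨by omega, hpos, by omega⟩, mem_range.1 hl⟩, sum_mul,
            mul_sum]
          refine sum_congr rfl (fun k _ => ?_)
          ring
        rw [sum_congr rfl (fun l hl => sum_congr rfl (hR l hl))]
        have hLk : ∀ k ∈ range (H.d (342 - σ - sh i)),
            (∑ m ∈ range (DH H σ), xh H i σ k m * a σ m) * b (342 - σ - sh i) k
            = ∑ l ∈ range (H.d (342 - σ)), ∑ m ∈ range (H.d σ),
              H.x i (342 - σ - sh i) l k * H.g σ l m * a σ m * b (342 - σ - sh i) k := by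
          intro k _
          rw [hDσ, sum_mul, sum_comm]
          refine sum_congr rfl (fun m _ => ?_)
          unfold xh
          rw [if_neg (by omega), if_pos h9, sum_mul, sum_mul]
        rw [sum_congr rfl hLk, sum_comm]
        refine sum_congr rfl (fun l _ => ?_)
        rw [sum_comm]
      · by_cases h10 : 9 < dB σ
        · rw [if_pos (by omega), if_pos h10, if_neg h9, add_zero, hcut]
          have hDσ : DH H σ = H.d (342 - σ) := by unfold DH; rw [if_neg (by omega)]
          have hR : ∀ m ∈ range (H.d (342 - σ)), a σ m * XW H i b (342 - σ) m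
              = ∑ k ∈ range (H.d (342 - σ - sh i)),
                H.x i (342 - σ - sh i) m k * a σ m * b (342 - σ - sh i) k := by
            intro m hm
            rw [XW_apply, if_pos ⟨⟨by omega, hpos, by omega⟩, mem_range.1 hm⟩, mul_sum]
            refine sum_congr rfl (fun k _ => ?_)
            ring
          rw [sum_congr rfl hR, hDσ, sum_comm]
          refine sum_congr rfl (fun k _ => ?_)
          rw [sum_mul]
          refine sum_congr rfl (fun m _ => ?_)
          unfold xh
          rw [if_neg (by omega), if_neg h9]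
        · rw [if_neg (by omega), if_neg h10, if_neg h9, add_zero]
    · rw [if_neg hi]
      have hz : ∀ l, XW H i b (342 - σ) l = 0 := by
        intro l
        rw [XW_apply, if_neg]
        rintro ⟨⟨-, h, -⟩, -⟩
        omega
      have e1 : (if 9 < dB σ then ∑ k ∈ range (H.d (342 - σ)), a σ k * XW H i b (342 - σ) k
          else 0) = 0 := by
        split_ifs
        · exact sum_eq_zero (fun k _ => by rw [hz, mul_zero])
        · rfl
      have e2 : (if dB σ = 9 then ∑ k ∈ range (H.d (342 - σ)), ∑ m ∈ range (H.d σ),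
          H.g σ k m * (XW H i b (342 - σ) k * lowPart a σ m) else 0) = 0 := by
        split_ifs
        · exact sum_eq_zero (fun k _ => sum_eq_zero (fun m _ => by rw [hz, zero_mul, mul_zero]))
        · rfl
      rw [e1, e2, add_zero]

theorem Th_vec (a : HV) (u : List (Fin 3)) :
    Th H (vec (XH H) a u) = vec (fun i => XF (XW H) (BW H) i) (Th H a) u := by
  induction u with
  | nil => rfl
  | cons i u ih =>
    simp only [vec]
    rw [Th_XH, ih]

theorem Th_v0 : Th H v0 = (v0, 0) := by
  refine Prod.ext ?_ ?_
  · change lowPart v0 = v0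
    funext τ k
    change (if dB τ ≤ 9 then v0 τ k else 0) = v0 τ k
    by_cases h : τ = 0
    · subst h
      rw [if_pos (by decide)]
    · have : v0 τ k = 0 := if_neg (fun hh => h hh.1)
      rw [this]
      split_ifs <;> rfl
  · apply LinearMap.ext
    intro b
    change dualPart H v0 b = 0
    rw [dualPart_apply]
    refine sum_eq_zero (fun τ _ => ?_)
    by_cases h9 : 9 < dB τ
    · rw [if_pos h9]
      refine sum_eq_zero (fun k _ => ?_)
      have : v0 τ k = 0 := by
        refine if_neg (fun hh => ?_)
        rw [hh.1] at h9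
        revert h9
        decide
      rw [this, zero_mul]
    · rw [if_neg h9]

/-- The functional on words attached to a vector of the full model: apply the letters and read the
coordinate of the top block. -/
def Phi : HV →ₗ[ZMod 7] Fn 7 where
  toFun a u := vec (XH H) a u 342 0
  map_add' a b := by
    funext u
    have h : ∀ u : List (Fin 3), vec (XH H) (a + b) u = vec (XH H) a u + vec (XH H) b u := by
      intro u
      induction u with
      | nil => rfl
      | cons i u ih => simp only [vec, ih, map_add]
    change vec (XH H) (a + b) u 342 0 = _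
    rw [h]
    rfl
  map_smul' c a := by
    funext u
    have h : ∀ u : List (Fin 3), vec (XH H) (c • a) u = c • vec (XH H) a u := by
      intro u
      induction u with
      | nil => rfl
      | cons i u ih => simp only [vec, ih, map_smul]
    change vec (XH H) (c • a) u 342 0 = _
    rw [h]
    rfl

theorem Phi_apply (a : HV) (u : List (Fin 3)) : Phi H a u = vec (XH H) a u 342 0 := rfl

theorem Phi_X (i : Fin 3) (a : HV) : Phi H (XH H i a) = Xop 7 i (Phi H a) := by
  funext u
  rw [Phi_apply, Xop_apply, Phi_apply, vec_append]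
  rfl

theorem Phi_vec (a : HV) (b : List (Fin 3)) :
    Phi H (vec (XH H) a b) = (b.map (Xop 7)).prod (Phi H a) := by
  induction b with
  | nil => simp [vec]
  | cons i b ih =>
    rw [List.map_cons, List.prod_cons, Module.End.mul_apply, ← ih, ← Phi_X]
    rfl

/-- The start vector gives the functional `fH`. -/
theorem Phi_v0 (hd0 : 0 < H.d 0) : Phi H v0 = fH H := by
  unfold fH
  rw [← Psi_start (XW H) v0 (BW H) 9 (by norm_num) (fun u v h => BW_deg H u v h)]
  funext u
  rw [Phi_apply]
  change _ = (vec (fun i => XF (XW H) (BW H) i) (v0, 0) u).2 v0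
  rw [← Th_v0 H, ← Th_vec]
  change _ = dualPart H (vec (XH H) v0 u) v0
  rw [dualPart_apply, Finset.sum_eq_single_of_mem 342 (by simp)]
  · rw [if_pos (by decide), Finset.sum_eq_single_of_mem 0 (mem_range.2 hd0)]
    · change _ = _ * (if 342 - 342 = 0 ∧ 0 = 0 then (1 : ZMod 7) else 0)
      simp
    · intro k _ hk
      change _ * (if 342 - 342 = 0 ∧ k = 0 then (1 : ZMod 7) else 0) = 0
      rw [if_neg (fun h => hk h.2), mul_zero]
  · intro τ hτ hne
    rw [mem_range] at hτ
    have : ∀ k, v0 (342 - τ) k = 0 := fun k => if_neg (fun h => hne (by omega))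
    split_ifs
    · exact sum_eq_zero (fun k _ => by rw [this, mul_zero])
    · rfl

/-- `a` on the full model corresponds to `r` on functions on words. -/
def Inter (a : HV →ₗ[ZMod 7] HV) (r : Module.End (ZMod 7) (Fn 7)) : Prop :=
  ∀ y, Phi H (a y) = r (Phi H y)

theorem Inter_X (i : Fin 3) : Inter H (XH H i) (Xop 7 i) := Phi_X H i

theorem Inter_mul {a b : HV →ₗ[ZMod 7] HV} {r s : Module.End (ZMod 7) (Fn 7)}
    (ha : Inter H a r) (hb : Inter H b s) : Inter H (a.comp b) (r * s) := by
  intro y
  rw [LinearMap.comp_apply, ha, hb]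
  rfl

theorem Inter_add {a b : HV →ₗ[ZMod 7] HV} {r s : Module.End (ZMod 7) (Fn 7)}
    (ha : Inter H a r) (hb : Inter H b s) : Inter H (a + b) (r + s) := by
  intro y
  rw [LinearMap.add_apply, map_add, ha, hb]
  rfl

theorem Inter_sub {a b : HV →ₗ[ZMod 7] HV} {r s : Module.End (ZMod 7) (Fn 7)}
    (ha : Inter H a r) (hb : Inter H b s) : Inter H (a - b) (r - s) := by
  intro y
  rw [LinearMap.sub_apply, map_sub, ha, hb]
  rfl

theorem Inter_smul (c : ZMod 7) {a : HV →ₗ[ZMod 7] HV} {r : Module.End (ZMod 7) (Fn 7)}
    (ha : Inter H a r) : Inter H (c • a) (c • r) := by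
  intro y
  rw [LinearMap.smul_apply, map_smul, ha]
  rfl

theorem Inter_one : Inter H LinearMap.id 1 := fun _ => rfl

theorem Inter_zero : Inter H 0 0 := fun y => by
  rw [LinearMap.zero_apply, map_zero]
  rfl

end Pool.Agent.Work.MP_bde882_al.H87
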