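import Pool.Agent.Work.MP_bde882_al_h87.Deriv

/-!
The hypotheses of `fH_der_of_basis` as finite identities between sums of entries of the matrices.
-/

set_option autoImplicit false

namespace Pool.Agent.Work.MP_bde882_al.H87

open Finset

variable (H : HM)

/-- a vector supported in the block `σ`, coordinates `< n` -/
def cv (σ n : ℕ) (c : ℕ → ZMod 7) : HV := fun τ k => if τ = σ ∧ k < n then c k else 0

theorem mapp_cv (n : ℕ) (M : ℕ → ℕ → ZMod 7) (σ : ℕ) (c : ℕ → ZMod 7) (τ k : ℕ) :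
    mapp n M (cv σ n c τ) k = if τ = σ then ∑ l ∈ range n, M k l * c l else 0 := by
  unfold mapp
  by_cases hτ : τ = σ
  · rw [if_pos hτ]
    refine sum_congr rfl (fun l hl => ?_)
    change M k l * (if τ = σ ∧ l < n then c l else 0) = _
    rw [if_pos ⟨hτ, mem_range.1 hl⟩]
  · rw [if_neg hτ]
    refine sum_eq_zero (fun l _ => ?_)
    change M k l * (if τ = σ ∧ l < n then c l else 0) = _
    rw [if_neg (fun h => hτ h.1), mul_zero]

theorem cv_pos {σ n : ℕ} (c : ℕ → ZMod 7) {k : ℕ} (h : k < n) : cv σ n c σ k = c k :=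
  if_pos ⟨rfl, h⟩

theorem cv_ne {σ n : ℕ} (c : ℕ → ZMod 7) {τ k : ℕ} (h : τ ≠ σ) : cv σ n c τ k = 0 :=
  if_neg (fun hh => h hh.1)

theorem cv_ge {σ n : ℕ} (c : ℕ → ZMod 7) {τ k : ℕ} (h : ¬ k < n) : cv σ n c τ k = 0 :=
  if_neg (fun hh => h hh.2)

theorem cv_zero (σ n : ℕ) : cv σ n (fun _ => 0) = 0 := by
  funext τ k
  change (if τ = σ ∧ k < n then (0 : ZMod 7) else 0) = 0
  split_ifs <;> rfl

theorem cv_congr (σ n : ℕ) (c c' : ℕ → ZMod 7) (h : ∀ r < n, c r = c' r) :
    cv σ n c = cv σ n c' := by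
  funext τ k
  by_cases hk : k < n
  · by_cases hτ : τ = σ
    · subst hτ
      rw [cv_pos c hk, cv_pos c' hk, h k hk]
    · rw [cv_ne c hτ, cv_ne c' hτ]
  · rw [cv_ge c hk, cv_ge c' hk]

theorem cv_add (σ n : ℕ) (c c' : ℕ → ZMod 7) :
    cv σ n c + cv σ n c' = cv σ n (fun r => c r + c' r) := by
  funext τ k
  change cv σ n c τ k + cv σ n c' τ k = _
  by_cases hk : k < n
  · by_cases hτ : τ = σ
    · subst hτ
      rw [cv_pos _ hk, cv_pos _ hk, cv_pos _ hk]
    · rw [cv_ne _ hτ, cv_ne _ hτ, cv_ne _ hτ, add_zero]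
  · rw [cv_ge _ hk, cv_ge _ hk, cv_ge _ hk, add_zero]

theorem mapp_cv_ne (n' : ℕ) (M : ℕ → ℕ → ZMod 7) (σ n : ℕ) (c : ℕ → ZMod 7) (τ k : ℕ)
    (h : τ ≠ σ) : mapp n' M (cv σ n c τ) k = 0 := by
  unfold mapp
  refine sum_eq_zero (fun l _ => ?_)
  rw [cv_ne c h, mul_zero]

/-- facts about the source and target blocks of `E_ij` -/
theorem E_facts : ∀ i j : Fin 3, i ≠ j → ∀ τ < 343, 0 < dg i τ ∧ dg j τ < 6 →
    (τ + sh j - sh i < 343 ∧ 0 < dg j (τ + sh j - sh i) ∧ dg i (τ + sh j - sh i) < 6 ∧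
      dB (τ + sh j - sh i) = dB τ ∧ τ + sh j - sh i + sh i - sh j = τ) := by
  decide +kernel

theorem sh_le (i : Fin 3) : sh i ≤ 49 := by revert i; decide

theorem up_facts : ∀ σ < 343, ∀ i : Fin 3, dg i σ < 6 →
    σ + sh i < 343 ∧ 0 < dg i (σ + sh i) ∧ dB (σ + sh i) = dB σ + 1 := by
  decide +kernel

theorem down_facts : ∀ τ < 343, ∀ i : Fin 3, 0 < dg i τ → dg i (τ - sh i) < 6 := by
  decide +kernel

theorem cX_iff (d : ℕ → ℕ) (i : Fin 3) (τ k : ℕ) : cX d i τ k = true
    ↔ τ < 343 ∧ 0 < dg i τ ∧ dB τ ≤ 9 ∧ k < d τ := by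
  unfold cX
  simp only [Bool.and_eq_true, decide_eq_true_eq]
  tauto

theorem cE_iff (d : ℕ → ℕ) (i j : Fin 3) (τ k : ℕ) : cE d i j τ k = true
    ↔ τ < 343 ∧ (0 < dg i τ ∧ dg j τ < 6) ∧ dB τ ≤ 9 ∧ k < d τ := by
  unfold cE
  simp only [Bool.and_eq_true, decide_eq_true_eq]
  tauto

theorem XW_cv (k : Fin 3) (σ : ℕ) (hσ : σ < 343) (h9 : dB σ < 9) (c : ℕ → ZMod 7) :
    XW H k (cv σ (H.d σ) c) = cv (σ + sh k) (H.d (σ + sh k))
      (fun r => if dg k σ < 6 then ∑ l ∈ range (H.d σ), H.x k σ r l * c l else 0) := by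
  funext τ r
  unfold XW
  rw [bop_apply]
  by_cases hr : r < H.d (σ + sh k)
  · by_cases hτ : τ = σ + sh k
    · subst hτ
      rw [cv_pos _ hr]
      by_cases hk : dg k σ < 6
      · obtain ⟨hup, hpos, hB⟩ := up_facts σ hσ k hk
        rw [if_pos hk, if_pos ((cX_iff _ _ _ _).2 ⟨hup, hpos, by omega, hr⟩),
          Nat.add_sub_cancel, mapp_cv, if_pos rfl]
      · rw [if_neg hk]
        by_cases hc : cX H.d k (σ + sh k) r = true
        · exfalso
          have hc' := (cX_iff _ _ _ _).1 hc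
          have := down_facts _ hc'.1 k hc'.2.1
          rw [Nat.add_sub_cancel] at this
          exact hk this
        · rw [if_neg hc]
    · rw [cv_ne _ hτ]
      by_cases hc : cX H.d k τ r = true
      · rw [if_pos hc]
        have hc' := (cX_iff _ _ _ _).1 hc
        have hle := (dg_facts τ hc'.1 k hc'.2.1).1
        exact mapp_cv_ne _ _ _ _ _ _ _ (by omega)
      · rw [if_neg hc]
  · rw [cv_ge _ hr]
    by_cases hc : cX H.d k τ r = true
    · rw [if_pos hc]
      have hc' := (cX_iff _ _ _ _).1 hc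
      have hle := (dg_facts τ hc'.1 k hc'.2.1).1
      refine mapp_cv_ne _ _ _ _ _ _ _ (fun h => ?_)
      have : τ = σ + sh k := by omega
      exact hr (this ▸ hc'.2.2.2)
    · rw [if_neg hc]

theorem EW_cv (e : Fin 3 → Fin 3 → ℕ → ℕ → ℕ → ZMod 7) (i j : Fin 3) (hij : i ≠ j) (σ : ℕ)
    (hσ : σ < 343) (h9 : dB σ ≤ 9) (c : ℕ → ZMod 7) :
    EW H e i j (cv σ (H.d σ) c) = cv (σ + sh i - sh j) (H.d (σ + sh i - sh j))
          (fun r => if 0 < dg j σ ∧ dg i σ < 6 then
            ∑ l ∈ range (H.d σ), e i j σ r l * c l else 0) := by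
  funext τ r
  unfold EW
  rw [bop_apply]
  have hback : ∀ τ, cE H.d i j τ r = true → τ + sh j - sh i = σ → τ = σ + sh i - sh j ∧
      (0 < dg j σ ∧ dg i σ < 6) := by
    intro τ hc h
    have hc' := (cE_iff _ _ _ _ _).1 hc
    obtain ⟨-, hp, hl, -, hb2⟩ := E_facts i j hij τ hc'.1 hc'.2.1
    rw [h] at hp hl hb2
    exact ⟨hb2.symm, hp, hl⟩
  by_cases hr : r < H.d (σ + sh i - sh j)
  · by_cases hτ : τ = σ + sh i - sh j
    · subst hτ
      rw [cv_pos _ hr]
      by_cases hk : 0 < dg j σ ∧ dg i σ < 6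
      · obtain ⟨hup, hposi, hlt, hB, hbk⟩ := E_facts j i hij.symm σ hσ hk
        rw [if_pos hk, if_pos ((cE_iff _ _ _ _ _).2 ⟨hup, ⟨hposi, hlt⟩, by omega, hr⟩),
          hbk, mapp_cv, if_pos rfl]
      · rw [if_neg hk]
        by_cases hc : cE H.d i j (σ + sh i - sh j) r = true
        · rw [if_pos hc]
          exact mapp_cv_ne _ _ _ _ _ _ _ (fun h => hk (hback _ hc h).2)
        · rw [if_neg hc]
    · rw [cv_ne _ hτ]
      by_cases hc : cE H.d i j τ r = true
      · rw [if_pos hc]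
        exact mapp_cv_ne _ _ _ _ _ _ _ (fun h => hτ (hback _ hc h).1)
      · rw [if_neg hc]
  · rw [cv_ge _ hr]
    by_cases hc : cE H.d i j τ r = true
    · rw [if_pos hc]
      refine mapp_cv_ne _ _ _ _ _ _ _ (fun h => ?_)
      have h2 := (hback _ hc h).1
      have hc' := (cE_iff _ _ _ _ _).1 hc
      exact hr (h2 ▸ hc'.2.2.2)
    · rw [if_neg hc]

theorem bv_eq_cv (β m : ℕ) (hm : m < H.d β) :
    bv β m = cv β (H.d β) (fun k => if k = m then 1 else 0) := by
  funext τ k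
  change (if τ = β ∧ k = m then (1 : ZMod 7) else 0)
    = if τ = β ∧ k < H.d β then (if k = m then 1 else 0) else 0
  by_cases h1 : τ = β
  · by_cases h2 : k = m
    · rw [if_pos ⟨h1, h2⟩, if_pos ⟨h1, h2 ▸ hm⟩, if_pos h2]
    · rw [if_neg (fun h => h2 h.2)]
      split_ifs <;> rfl
  · rw [if_neg (fun h => h1 h.1), if_neg (fun h => h1 h.1)]

theorem sum_ite_one (n m : ℕ) (hm : m < n) (f : ℕ → ZMod 7) :
    ∑ l ∈ range n, f l * (if l = m then 1 else 0) = f m := by
  rw [Finset.sum_eq_single_of_mem m (mem_range.2 hm)]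
  · simp
  · intro l _ hl
    simp [hl]

/-- combinatorial facts on the blocks in the commutation relation -/
theorem C1_facts : ∀ i j : Fin 3, i ≠ j → ∀ β < 343, ∀ k : Fin 3,
    ((0 < dg j β ∧ dg i β < 6) ∧ dg k (β + sh i - sh j) < 6 →
      β + sh i - sh j + sh k = β + sh k + sh i - sh j) ∧
    (0 < dg j β ∧ dg i β < 6 → β + sh i - sh j < 343 ∧ dB (β + sh i - sh j) = dB β) ∧
    (k = j → β + sh k + sh i - sh j = β + sh i) := by
  decide +kernel

/-- **The commutation relation on a basis vector from sums of entries.** -/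
theorem h1_of_sums (e : Fin 3 → Fin 3 → ℕ → ℕ → ℕ → ZMod 7) (i j : Fin 3) (hij : i ≠ j)
    (β : ℕ) (hβ : β < 343) (h9 : dB β < 9) (m : ℕ) (hm : m < H.d β) (k : Fin 3)
    (hs : ∀ r < H.d (β + sh k + sh i - sh j),
      (if dg k β < 6 ∧ 0 < dg j (β + sh k) ∧ dg i (β + sh k) < 6 then
        ∑ l ∈ range (H.d (β + sh k)), e i j (β + sh k) r l * H.x k β l m else 0)
      = (if 0 < dg j β ∧ dg i β < 6 ∧ dg k (β + sh i - sh j) < 6 then
        ∑ l ∈ range (H.d (β + sh i - sh j)), H.x k (β + sh i - sh j) r l * e i j β l m else 0)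
        + if k = j ∧ dg i β < 6 then H.x i β r m else 0) :
    EW H e i j (XW H k (bv β m))
      = XW H k (EW H e i j (bv β m)) + if k = j then XW H i (bv β m) else 0 := by
  obtain ⟨f2, f3, f4⟩ := C1_facts i j hij β hβ k
  -- the three terms as vectors supported in the target block
  have t1 : EW H e i j (XW H k (bv β m))
      = cv (β + sh k + sh i - sh j) (H.d (β + sh k + sh i - sh j)) (fun r =>
      if dg k β < 6 ∧ 0 < dg j (β + sh k) ∧ dg i (β + sh k) < 6 then
        ∑ l ∈ range (H.d (β + sh k)), e i j (β + sh k) r l * H.x k β l m else 0) := by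
    rw [bv_eq_cv H β m hm, XW_cv H k β hβ h9]
    by_cases hk : dg k β < 6
    · obtain ⟨hup, -, hB⟩ := up_facts β hβ k hk
      rw [EW_cv H e i j hij _ hup (by omega)]
      refine cv_congr _ _ _ _ (fun r _ => ?_)
      by_cases h2 : 0 < dg j (β + sh k) ∧ dg i (β + sh k) < 6
      · rw [if_pos h2, if_pos ⟨hk, h2⟩]
        refine sum_congr rfl (fun l _ => ?_)
        rw [if_pos hk, sum_ite_one _ m hm]
      · rw [if_neg h2, if_neg (fun h => h2 h.2)]
    · have e1 : cv (β + sh k) (H.d (β + sh k)) (fun r => if dg k β < 6 then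
          ∑ l ∈ range (H.d β), H.x k β r l * (if l = m then 1 else 0) else 0) = 0 := by
        rw [← cv_zero (β + sh k) (H.d (β + sh k))]
        exact cv_congr _ _ _ _ (fun r _ => if_neg hk)
      rw [e1, map_zero]
      symm
      rw [← cv_zero (β + sh k + sh i - sh j) (H.d (β + sh k + sh i - sh j))]
      exact cv_congr _ _ _ _ (fun r _ => if_neg (fun h => hk h.1))
  have t2 : XW H k (EW H e i j (bv β m))
      = cv (β + sh k + sh i - sh j) (H.d (β + sh k + sh i - sh j)) (fun r =>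
      if 0 < dg j β ∧ dg i β < 6 ∧ dg k (β + sh i - sh j) < 6 then
        ∑ l ∈ range (H.d (β + sh i - sh j)), H.x k (β + sh i - sh j) r l * e i j β l m
      else 0) := by
    rw [bv_eq_cv H β m hm, EW_cv H e i j hij β hβ (by omega)]
    by_cases hk : 0 < dg j β ∧ dg i β < 6
    · obtain ⟨g1, g2⟩ := f3 hk
      rw [XW_cv H k _ g1 (by rw [g2]; exact h9)]
      by_cases h2 : dg k (β + sh i - sh j) < 6
      · rw [f2 ⟨hk, h2⟩]
        refine cv_congr _ _ _ _ (fun r _ => ?_)
        rw [if_pos h2, if_pos ⟨hk.1, hk.2, h2⟩]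
        refine sum_congr rfl (fun l _ => ?_)
        rw [if_pos hk, sum_ite_one _ m hm]
      · have e1 : cv (β + sh i - sh j + sh k) (H.d (β + sh i - sh j + sh k))
            (fun r => if dg k (β + sh i - sh j) < 6 then
            ∑ l ∈ range (H.d (β + sh i - sh j)), H.x k (β + sh i - sh j) r l *
              (if 0 < dg j β ∧ dg i β < 6 then
                ∑ l' ∈ range (H.d β), e i j β l l' * (if l' = m then 1 else 0) else 0)
            else 0) = 0 := by
          rw [← cv_zero (β + sh i - sh j + sh k) (H.d (β + sh i - sh j + sh k))]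
          exact cv_congr _ _ _ _ (fun r _ => if_neg h2)
        rw [e1]
        symm
        rw [← cv_zero (β + sh k + sh i - sh j) (H.d (β + sh k + sh i - sh j))]
        exact cv_congr _ _ _ _ (fun r _ => if_neg (fun h => h2 h.2.2))
    · have e1 : cv (β + sh i - sh j) (H.d (β + sh i - sh j)) (fun r =>
          if 0 < dg j β ∧ dg i β < 6 then
            ∑ l ∈ range (H.d β), e i j β r l * (if l = m then 1 else 0) else 0) = 0 := by
        rw [← cv_zero (β + sh i - sh j) (H.d (β + sh i - sh j))]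
        exact cv_congr _ _ _ _ (fun r _ => if_neg hk)
      rw [e1, map_zero]
      symm
      rw [← cv_zero (β + sh k + sh i - sh j) (H.d (β + sh k + sh i - sh j))]
      exact cv_congr _ _ _ _ (fun r _ => if_neg (fun h => hk ⟨h.1, h.2.1⟩))
  have t3 : (if k = j then XW H i (bv β m) else 0)
      = cv (β + sh k + sh i - sh j) (H.d (β + sh k + sh i - sh j)) (fun r =>
      if k = j ∧ dg i β < 6 then H.x i β r m else 0) := by
    by_cases hk : k = j
    · rw [if_pos hk, bv_eq_cv H β m hm, XW_cv H i β hβ h9, f4 hk]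
      refine cv_congr _ _ _ _ (fun r _ => ?_)
      by_cases h2 : dg i β < 6
      · rw [if_pos h2, if_pos ⟨hk, h2⟩, sum_ite_one _ m hm]
      · rw [if_neg h2, if_neg (fun h => h2 h.2)]
    · rw [if_neg hk]
      symm
      rw [← cv_zero (β + sh k + sh i - sh j) (H.d (β + sh k + sh i - sh j))]
      exact cv_congr _ _ _ _ (fun r _ => if_neg (fun h => hk h.1))
  rw [t1, t2, t3, cv_add]
  exact cv_congr _ _ _ _ hs

/-- value of the form on two vectors supported in one block each -/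
theorem BW_cv (μ β : ℕ) (hβ : β < 343) (h9 : dB β = 9) (hμ : 342 - β = μ) (c c' : ℕ → ZMod 7) :
    BW H (cv μ (H.d μ) c) (cv β (H.d β) c')
      = ∑ k ∈ range (H.d μ), ∑ m ∈ range (H.d β), H.g β k m * (c k * c' m) := by
  subst hμ
  rw [BW_apply, Finset.sum_eq_single_of_mem β (mem_filter.2 ⟨mem_range.2 hβ, h9⟩)]
  · refine sum_congr rfl (fun k hk => sum_congr rfl (fun m hm => ?_))
    rw [cv_pos _ (mem_range.1 hk), cv_pos _ (mem_range.1 hm)]
  · intro γ _ hγ
    refine sum_eq_zero (fun k _ => sum_eq_zero (fun m _ => ?_))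
    rw [cv_ne c' hγ, mul_zero, mul_zero]

theorem BW_cv_ne (μ β : ℕ) (n n' : ℕ) (hμ : 342 - β ≠ μ) (c c' : ℕ → ZMod 7) :
    BW H (cv μ n c) (cv β n' c') = 0 := by
  rw [BW_apply]
  refine sum_eq_zero (fun γ _ => sum_eq_zero (fun k _ => sum_eq_zero (fun m _ => ?_)))
  by_cases h : γ = β
  · subst h
    rw [cv_ne c hμ, zero_mul, mul_zero]
  · rw [cv_ne c' h, mul_zero, mul_zero]

/-- the product `G E` on a block: rows `p` in the block `342 - (β + sh i - sh j)`, columns `m` in the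
block `β` -/
def GE (e : Fin 3 → Fin 3 → ℕ → ℕ → ℕ → ZMod 7) (i j : Fin 3) (β p m : ℕ) : ZMod 7 :=
  ∑ l ∈ range (H.d (β + sh i - sh j)), H.g (β + sh i - sh j) p l * e i j β l m

/-- **The invariance of the form from sums of entries.** -/
theorem h2_of_sums (e : Fin 3 → Fin 3 → ℕ → ℕ → ℕ → ZMod 7) (i j : Fin 3) (hij : i ≠ j)
    (hg : ∀ β < 343, dB β = 9 → ∀ k < H.d (342 - β), ∀ m < H.d β,
      H.g β k m = H.g (342 - β) m k)
    (hs : ∀ β < 343, dB β = 9 → 0 < dg j β → dg i β < 6 →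
      ∀ p < H.d (342 - (β + sh i - sh j)), ∀ m < H.d β,
      GE H e i j β p m + GE H e i j (342 - (β + sh i - sh j)) m p = 0)
    (μ : ℕ) (hμ : μ < 343) (hμ9 : dB μ = 9) (p : ℕ) (hp : p < H.d μ)
    (β : ℕ) (hβ : β < 343) (hβ9 : dB β = 9) (m : ℕ) (hm : m < H.d β) :
    BW H (EW H e i j (bv μ p)) (bv β m) + BW H (bv μ p) (EW H e i j (bv β m)) = 0 := by
  rw [bv_eq_cv H μ p hp, bv_eq_cv H β m hm, EW_cv H e i j hij μ hμ (by omega),
    EW_cv H e i j hij β hβ (by omega)]
  have hcompl := dg_compl β hβ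
  have hcz : ∀ σ τ : ℕ, ¬ (0 < dg j σ ∧ dg i σ < 6) → ∀ f : ℕ → ZMod 7,
      cv τ (H.d τ) (fun r => if 0 < dg j σ ∧ dg i σ < 6 then f r else 0) = 0 := by
    intro σ τ h f
    rw [← cv_zero τ (H.d τ)]
    exact cv_congr _ _ _ _ (fun r _ => if_neg h)
  -- second term
  by_cases hc : 0 < dg j β ∧ dg i β < 6
  · obtain ⟨g1, g2, g3, g4, g5⟩ := E_facts j i hij.symm β hβ hc
    by_cases hmatch : 342 - (β + sh i - sh j) = μ
    · have hi := dg_compl _ g1 i
      have hj := dg_compl _ g1 j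
      have hcμ : 0 < dg j μ ∧ dg i μ < 6 := by
        rw [← hmatch]
        omega
      obtain ⟨q1, q2, q3, q4, q5⟩ := E_facts j i hij.symm μ hμ hcμ
      have hback : μ + sh i - sh j = 342 - β := by omega
      rw [hback, BW_cv H (342 - β) β hβ hβ9 rfl,
        BW_cv H μ (β + sh i - sh j) g1 (by rw [g4]; exact hβ9) hmatch]
      have e1 : ∑ k ∈ range (H.d (342 - β)), ∑ m' ∈ range (H.d β), H.g β k m'
            * ((if 0 < dg j μ ∧ dg i μ < 6 then
                ∑ l ∈ range (H.d μ), e i j μ k l * (if l = p then 1 else 0) else 0)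
              * (if m' = m then 1 else 0)) = GE H e i j μ m p := by
        unfold GE
        rw [hback]
        refine sum_congr rfl (fun k hk => ?_)
        rw [if_pos hcμ, sum_ite_one _ p hp]
        have : ∀ m' ∈ range (H.d β), H.g β k m' * (e i j μ k p * (if m' = m then 1 else 0))
            = (H.g β k m' * e i j μ k p) * (if m' = m then 1 else 0) := fun m' _ => by ring
        rw [sum_congr rfl this, sum_ite_one _ m hm,
          hg β hβ hβ9 k (mem_range.1 hk) m hm]
      have e2 : ∑ k ∈ range (H.d μ), ∑ m' ∈ range (H.d (β + sh i - sh j)),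
            H.g (β + sh i - sh j) k m' * ((if k = p then 1 else 0)
              * (if 0 < dg j β ∧ dg i β < 6 then
                ∑ l ∈ range (H.d β), e i j β m' l * (if l = m then 1 else 0) else 0))
            = GE H e i j β p m := by
        rw [sum_comm]
        unfold GE
        refine sum_congr rfl (fun l _ => ?_)
        rw [if_pos hc, sum_ite_one _ m hm]
        have : ∀ k ∈ range (H.d μ), H.g (β + sh i - sh j) k l
            * ((if k = p then 1 else 0) * e i j β l m)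
            = (H.g (β + sh i - sh j) k l * e i j β l m) * (if k = p then 1 else 0) :=
          fun k _ => by ring
        rw [sum_congr rfl this, sum_ite_one _ p hp]
      rw [e1, e2, add_comm]
      have := hs β hβ hβ9 hc.1 hc.2 p (by rw [hmatch]; exact hp) m hm
      rw [hmatch] at this
      exact this
    · rw [BW_cv_ne H μ (β + sh i - sh j) _ _ hmatch, add_zero]
      by_cases hcμ : 0 < dg j μ ∧ dg i μ < 6
      · obtain ⟨q1, q2, q3, q4, q5⟩ := E_facts j i hij.symm μ hμ hcμ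
        refine BW_cv_ne H _ β _ _ (fun h => hmatch ?_) _ _
        omega
      · rw [hcz μ _ hcμ, LinearMap.map_zero, LinearMap.zero_apply]
  · rw [hcz β _ hc, map_zero, add_zero]
    by_cases hcμ : 0 < dg j μ ∧ dg i μ < 6
    · obtain ⟨q1, q2, q3, q4, q5⟩ := E_facts j i hij.symm μ hμ hcμ
      refine BW_cv_ne H _ β _ _ (fun h => hc ?_) _ _
      have hi := hcompl i
      have hj := hcompl j
      rw [h] at hi hj
      omega
    · rw [hcz μ _ hcμ, LinearMap.map_zero, LinearMap.zero_apply]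

/-- **P2 from sums of entries.** -/
theorem fH_der_of_sums (hd0 : 0 < H.d 0) (e : Fin 3 → Fin 3 → ℕ → ℕ → ℕ → ZMod 7)
    (i j : Fin 3) (hij : i ≠ j)
    (hg : ∀ β < 343, dB β = 9 → ∀ k < H.d (342 - β), ∀ m < H.d β,
      H.g β k m = H.g (342 - β) m k)
    (h1 : ∀ β < 343, dB β < 9 → ∀ m < H.d β, ∀ k : Fin 3,
      ∀ r < H.d (β + sh k + sh i - sh j),
      (if dg k β < 6 ∧ 0 < dg j (β + sh k) ∧ dg i (β + sh k) < 6 then
        ∑ l ∈ range (H.d (β + sh k)), e i j (β + sh k) r l * H.x k β l m else 0)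
      = (if 0 < dg j β ∧ dg i β < 6 ∧ dg k (β + sh i - sh j) < 6 then
        ∑ l ∈ range (H.d (β + sh i - sh j)), H.x k (β + sh i - sh j) r l * e i j β l m else 0)
        + if k = j ∧ dg i β < 6 then H.x i β r m else 0)
    (h2 : ∀ β < 343, dB β = 9 → 0 < dg j β → dg i β < 6 →
      ∀ p < H.d (342 - (β + sh i - sh j)), ∀ m < H.d β,
      GE H e i j β p m + GE H e i j (342 - (β + sh i - sh j)) m p = 0)
    (w : List (Fin 3)) : der i j w (fH H) = 0 :=
  fH_der_of_basis H hd0 e i j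
    (fun β hβ h9 m hm k => h1_of_sums H e i j hij β hβ h9 m hm k (h1 β hβ h9 m hm k))
    (fun μ hμ hμ9 p hp β hβ hβ9 m hm =>
      h2_of_sums H e i j hij hg h2 μ hμ hμ9 p hp β hβ hβ9 m hm) w

end Pool.Agent.Work.MP_bde882_al.H87
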