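import Pool.Agent.Work.MP_bde882_al_h87.Half

/-!
Concrete half model with content blocks.  A block (content) `(a, b, c)`, `a, b, c ≤ 6`, has the code
`49 a + 7 b + c < 343`.  A vector is a function block → coordinate → `ZMod 7`.
-/

set_option autoImplicit false

namespace Pool.Agent.Work.MP_bde882_al.H87

open Finset

/-- the code of one letter -/
def sh (i : Fin 3) : ℕ := if i = 0 then 49 else if i = 1 then 7 else 1

/-- the number of letters `i` in the block `β` -/
def dg (i : Fin 3) (β : ℕ) : ℕ := β / sh i % 7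

/-- the degree of a block -/
def dB (β : ℕ) : ℕ := dg 0 β + dg 1 β + dg 2 β

/-- vectors of the half model: block, coordinate -/
abbrev HV : Type := ℕ → ℕ → ZMod 7

/-- Data of a half model. -/
structure HM where
  /-- dimension of a block of degree `≤ 9` -/
  d : ℕ → ℕ
  /-- `x i β k m` : coefficient of the basis vector `k` of the block `β + sh i` in the image under
  the letter `i` of the basis vector `m` of the block `β` -/
  x : Fin 3 → ℕ → ℕ → ℕ → ZMod 7
  /-- `g β k m` : value of the form at the basis vector `k` of the block `342 - β` and the basis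
  vector `m` of the block `β` (of degree 9) -/
  g : ℕ → ℕ → ℕ → ZMod 7

/-- application of a block matrix -/
def mapp (n : ℕ) (M : ℕ → ℕ → ZMod 7) (v : ℕ → ZMod 7) (k : ℕ) : ZMod 7 :=
  ∑ m ∈ range n, M k m * v m

theorem mapp_add (n : ℕ) (M : ℕ → ℕ → ZMod 7) (v w : ℕ → ZMod 7) (k : ℕ) :
    mapp n M (v + w) k = mapp n M v k + mapp n M w k := by
  unfold mapp
  rw [← sum_add_distrib]
  exact sum_congr rfl (fun m _ => by rw [Pi.add_apply, mul_add])

theorem mapp_smul (n : ℕ) (M : ℕ → ℕ → ZMod 7) (c : ZMod 7) (v : ℕ → ZMod 7) (k : ℕ) :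
    mapp n M (c • v) k = c * mapp n M v k := by
  unfold mapp
  rw [mul_sum]
  exact sum_congr rfl (fun m _ => by rw [Pi.smul_apply, smul_eq_mul]; ring)

/-- A block operator: the value at the block `τ` is `M τ` applied to the block `src τ` (of dimension
`d (src τ)`), if `c τ k` holds. -/
def bop (d : ℕ → ℕ) (c : ℕ → ℕ → Bool) (src : ℕ → ℕ) (M : ℕ → ℕ → ℕ → ZMod 7) :
    HV →ₗ[ZMod 7] HV where
  toFun a τ k := if c τ k = true then mapp (d (src τ)) (M (src τ)) (a (src τ)) k else 0
  map_add' a b := by
    funext τ k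
    by_cases h : c τ k = true
    · simp only [h, if_true, Pi.add_apply]
      exact mapp_add _ _ _ _ _
    · simp [h]
  map_smul' r a := by
    funext τ k
    by_cases h : c τ k = true
    · simp only [h, if_true, Pi.smul_apply, RingHom.id_apply, smul_eq_mul]
      exact mapp_smul _ _ _ _ _
    · simp [h]

theorem bop_apply (d : ℕ → ℕ) (c : ℕ → ℕ → Bool) (src : ℕ → ℕ) (M : ℕ → ℕ → ℕ → ZMod 7)
    (a : HV) (τ k : ℕ) : bop d c src M a τ k
      = if c τ k = true then mapp (d (src τ)) (M (src τ)) (a (src τ)) k else 0 := rfl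

/-- the condition for a letter to hit the coordinate `k` of the block `τ` -/
def cX (d : ℕ → ℕ) (i : Fin 3) (τ k : ℕ) : Bool :=
  decide (τ < 343) && decide (0 < dg i τ) && decide (dB τ ≤ 9) && decide (k < d τ)

/-- the condition for `E_ij` to hit the coordinate `k` of the block `τ` -/
def cE (d : ℕ → ℕ) (i j : Fin 3) (τ k : ℕ) : Bool :=
  decide (τ < 343) && decide (0 < dg i τ) && decide (dg j τ < 6) && decide (dB τ ≤ 9)
    && decide (k < d τ)

variable (H : HM)

/-- the letters of the half model -/
def XW (i : Fin 3) : HV →ₗ[ZMod 7] HV := bop H.d (cX H.d i) (fun τ => τ - sh i) (H.x i)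

/-- the operators `E_ij` (a letter `j` becomes `i`) -/
def EW (e : Fin 3 → Fin 3 → ℕ → ℕ → ℕ → ZMod 7) (i j : Fin 3) : HV →ₗ[ZMod 7] HV :=
  bop H.d (cE H.d i j) (fun τ => τ + sh j - sh i) (e i j)

/-- the start vector -/
def v0 : HV := fun β k => if β = 0 ∧ k = 0 then 1 else 0

/-- the form -/
def BW : HV →ₗ[ZMod 7] HV →ₗ[ZMod 7] ZMod 7 :=
  LinearMap.mk₂ (ZMod 7)
    (fun a b => ∑ β ∈ (range 343).filter (fun β => dB β = 9),
      ∑ k ∈ range (H.d (342 - β)), ∑ m ∈ range (H.d β), H.g β k m * (a (342 - β) k * b β m))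
    (by
      intro a a' b
      rw [← sum_add_distrib]
      refine sum_congr rfl (fun β _ => ?_)
      rw [← sum_add_distrib]
      refine sum_congr rfl (fun k _ => ?_)
      rw [← sum_add_distrib]
      refine sum_congr rfl (fun m _ => ?_)
      simp only [Pi.add_apply]
      ring)
    (by
      intro c a b
      rw [smul_eq_mul, mul_sum]
      refine sum_congr rfl (fun β _ => ?_)
      rw [mul_sum]
      refine sum_congr rfl (fun k _ => ?_)
      rw [mul_sum]
      refine sum_congr rfl (fun m _ => ?_)
      simp only [Pi.smul_apply, smul_eq_mul]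
      ring)
    (by
      intro a b b'
      rw [← sum_add_distrib]
      refine sum_congr rfl (fun β _ => ?_)
      rw [← sum_add_distrib]
      refine sum_congr rfl (fun k _ => ?_)
      rw [← sum_add_distrib]
      refine sum_congr rfl (fun m _ => ?_)
      simp only [Pi.add_apply]
      ring)
    (by
      intro c a b
      rw [smul_eq_mul, mul_sum]
      refine sum_congr rfl (fun β _ => ?_)
      rw [mul_sum]
      refine sum_congr rfl (fun k _ => ?_)
      rw [mul_sum]
      refine sum_congr rfl (fun m _ => ?_)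
      simp only [Pi.smul_apply, smul_eq_mul]
      ring)

theorem BW_apply (a b : HV) : BW H a b
    = ∑ β ∈ (range 343).filter (fun β => dB β = 9),
      ∑ k ∈ range (H.d (342 - β)), ∑ m ∈ range (H.d β), H.g β k m * (a (342 - β) k * b β m) := rfl

/-- the functional on words -/
def fH : List (Fin 3) → ZMod 7 := hf (XW H) v0 (BW H) 9

/-- the block of a word -/
def code : List (Fin 3) → ℕ
  | [] => 0
  | i :: w => code w + sh i

section digits

theorem dg_facts : ∀ τ < 343, ∀ i : Fin 3, 0 < dg i τ →
    sh i ≤ τ ∧ ∀ k : Fin 3, dg k τ = dg k (τ - sh i) + if k = i then 1 else 0 := by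
  decide +kernel

theorem dg_zero (k : Fin 3) : dg k 0 = 0 := by
  revert k; decide

theorem dg_compl : ∀ τ < 343, ∀ k : Fin 3, dg k (342 - τ) + dg k τ = 6 := by
  decide +kernel

theorem code_of_dg : ∀ τ < 343, τ = 49 * dg 0 τ + 7 * dg 1 τ + dg 2 τ := by
  decide +kernel

end digits

/-- the vector of a word lives in the block of its content -/
theorem vec_support (w : List (Fin 3)) (β : ℕ) (k : ℕ) (h : vec (XW H) v0 w β k ≠ 0) :
    β < 343 ∧ (∀ i, dg i β = w.count i) ∧ β = code w ∧ w.length ≤ 9 := by
  induction w generalizing β k with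
  | nil =>
    have h1 : β = 0 ∧ k = 0 := by
      by_contra hne
      apply h
      change (if β = 0 ∧ k = 0 then (1 : ZMod 7) else 0) = 0
      rw [if_neg hne]
    rw [h1.1]
    exact ⟨by norm_num, fun i => by rw [dg_zero]; rfl, rfl, Nat.zero_le _⟩
  | cons i w ih =>
    have h1 : XW H i (vec (XW H) v0 w) β k ≠ 0 := h
    unfold XW at h1
    rw [bop_apply] at h1
    by_cases hc : cX H.d i β k = true
    · rw [if_pos hc] at h1
      unfold mapp at h1
      obtain ⟨m, -, hm⟩ := exists_ne_zero_of_sum_ne_zero h1
      have h2 : vec (XW H) v0 w (β - sh i) m ≠ 0 := right_ne_zero_of_mul hm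
      obtain ⟨-, h4, h5, -⟩ := ih _ _ h2
      unfold cX at hc
      simp only [Bool.and_eq_true, decide_eq_true_eq] at hc
      obtain ⟨⟨⟨hb, hd⟩, h9⟩, -⟩ := hc
      obtain ⟨hle, hdg⟩ := dg_facts β hb i hd
      have hcount : ∀ l, dg l β = (i :: w).count l := by
        intro l
        rw [hdg l, h4 l, List.count_cons]
        congr 1
        by_cases hl : l = i
        · subst hl; simp
        · rw [if_neg hl, if_neg (by simpa using fun h => hl h.symm)]
      refine ⟨hb, hcount, ?_, ?_⟩
      · change β = code w + sh i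
        rw [← h5]
        omega
      · have h6 : (i :: w).length = dB β := by
          unfold dB
          rw [hcount 0, hcount 1, hcount 2]
          clear * -
          generalize (i :: w) = l
          induction l with
          | nil => rfl
          | cons a l ih =>
            simp only [List.length_cons, List.count_cons, ih]
            fin_cases a <;> simp <;> omega
        omega
    · exact absurd (if_neg hc) h1

theorem length_eq_dg (w : List (Fin 3)) (β : ℕ) (h : ∀ i, dg i β = w.count i) :
    w.length = dB β := by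
  unfold dB
  rw [h 0, h 1, h 2]
  clear h
  induction w with
  | nil => rfl
  | cons a l ih =>
    simp only [List.length_cons, List.count_cons, ih]
    fin_cases a <;> simp <;> omega

/-- the form on two words: only the block of the second word matters -/
theorem BW_vec (u v : List (Fin 3)) (h : BW H (vec (XW H) v0 u) (vec (XW H) v0 v) ≠ 0) :
    u.length = 9 ∧ v.length = 9 ∧ ∀ i, u.count i + v.count i = 6 := by
  rw [BW_apply] at h
  obtain ⟨β, hβ, h1⟩ := exists_ne_zero_of_sum_ne_zero h
  obtain ⟨k, -, h2⟩ := exists_ne_zero_of_sum_ne_zero h1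
  obtain ⟨m, -, h3⟩ := exists_ne_zero_of_sum_ne_zero h2
  have h4 := left_ne_zero_of_mul (right_ne_zero_of_mul h3)
  have h5 := right_ne_zero_of_mul (right_ne_zero_of_mul h3)
  obtain ⟨hu, hud, -, -⟩ := vec_support H _ _ _ h4
  obtain ⟨hv, hvd, -, -⟩ := vec_support H _ _ _ h5
  rw [mem_filter, mem_range] at hβ
  have hc := dg_compl β hβ.1
  have hlv := length_eq_dg v β hvd
  have hlu := length_eq_dg u (342 - β) hud
  have h0 := hc 0
  have h1' := hc 1
  have h2' := hc 2
  have h9 := hβ.2
  refine ⟨?_, hlv.trans h9, fun i => by rw [← hud i, ← hvd i]; exact hc i⟩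
  rw [hlu]
  unfold dB at h9 ⊢
  omega

/-- **P1**: the functional vanishes outside the content `(6, 6, 6)`. -/
theorem fH_content (w : List (Fin 3)) (hw : ∃ i, w.count i ≠ 6) : fH H w = 0 := by
  refine hf_content _ _ _ 9 (fun _ => 6) ?_ w hw
  intro u v _ _ hne
  by_contra hB
  obtain ⟨i, hi⟩ := hne
  exact hi ((BW_vec H u v hB).2.2 i)

theorem BW_deg (u v : List (Fin 3)) (h : ¬ (u.length = 9 ∧ v.length = 9)) :
    BW H (vec (XW H) v0 u) (vec (XW H) v0 v) = 0 := by
  by_contra hB
  obtain ⟨h1, h2, -⟩ := BW_vec H u v hB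
  exact h ⟨h1, h2⟩

/-- **P3**: the functional is invariant under reversal if the Gram matrices are symmetric. -/
theorem fH_reverse (hg : ∀ β < 343, dB β = 9 → ∀ k < H.d (342 - β), ∀ m < H.d β,
      H.g β k m = H.g (342 - β) m k) (w : List (Fin 3)) :
    fH H w.reverse = fH H w := by
  refine hf_reverse _ _ _ 9 (fun u v _ _ => ?_) w
  rw [BW_apply, BW_apply]
  have hinv : ∀ β ∈ (range 343).filter (fun β => dB β = 9),
      342 - β ∈ (range 343).filter (fun β => dB β = 9) := by
    intro β hβ
    rw [mem_filter, mem_range] at hβ ⊢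
    refine ⟨by omega, ?_⟩
    have h0 := dg_compl β hβ.1 0
    have h1 := dg_compl β hβ.1 1
    have h2 := dg_compl β hβ.1 2
    have h9 := hβ.2
    unfold dB at h9 ⊢
    omega
  refine sum_bij' (fun β _ => 342 - β) (fun β _ => 342 - β) hinv hinv ?_ ?_ ?_
  · intro β hβ
    rw [mem_filter, mem_range] at hβ
    omega
  · intro β hβ
    rw [mem_filter, mem_range] at hβ
    omega
  · intro β hβ
    have hβ' := hβ
    rw [mem_filter, mem_range] at hβ'
    have e : 342 - (342 - β) = β := by omega
    rw [e, sum_comm]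
    refine sum_congr rfl (fun m hm => sum_congr rfl (fun k hk => ?_))
    rw [hg β hβ'.1 hβ'.2 k (mem_range.1 hk) m (mem_range.1 hm)]
    ring

end Pool.Agent.Work.MP_bde882_al.H87
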