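import Pool.Agent.Work.MP_bde882_al_h87.Concrete

/-!
The functional of the half model is killed by the derivations `E_ij`.
-/

set_option autoImplicit false

namespace Pool.Agent.Work.MP_bde882_al.H87

open Finset

variable (H : HM)

/-- basis vector `m` of the block `β` -/
def bv (β m : ℕ) : HV := fun τ k => if τ = β ∧ k = m then 1 else 0

theorem vec_lt (hd0 : 0 < H.d 0) (w : List (Fin 3)) (β : ℕ) (k : ℕ)
    (h : vec (XW H) v0 w β k ≠ 0) : k < H.d β := by
  cases w with
  | nil =>
    have h1 : β = 0 ∧ k = 0 := by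
      by_contra hne
      apply h
      change (if β = 0 ∧ k = 0 then (1 : ZMod 7) else 0) = 0
      rw [if_neg hne]
    rw [h1.1, h1.2]
    exact hd0
  | cons i w =>
    have h1 : XW H i (vec (XW H) v0 w) β k ≠ 0 := h
    unfold XW at h1
    rw [bop_apply] at h1
    by_cases hc : cX H.d i β k = true
    · unfold cX at hc
      simp only [Bool.and_eq_true, decide_eq_true_eq] at hc
      exact hc.2
    · exact absurd (if_neg hc) h1

/-- a vector supported in one block is a combination of basis vectors -/
theorem eq_sum_bv (a : HV) (β : ℕ) (n : ℕ)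
    (h : ∀ τ k, a τ k ≠ 0 → τ = β ∧ k < n) : a = ∑ m ∈ range n, a β m • bv β m := by
  funext τ k
  have e : (∑ m ∈ range n, a β m • bv β m) τ k = ∑ m ∈ range n, a β m * bv β m τ k := by
    rw [Finset.sum_apply, Finset.sum_apply]
    rfl
  rw [e]
  by_cases hτ : τ = β
  · subst hτ
    by_cases hk : k < n
    · rw [Finset.sum_eq_single k]
      · simp [bv]
      · intro m _ hm
        simp [bv, Ne.symm hm]
      · intro hk'
        exact absurd (mem_range.2 hk) hk'
    · have h1 : a τ k = 0 := by
        by_contra hne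
        exact hk (h τ k hne).2
      rw [h1]
      symm
      refine Finset.sum_eq_zero (fun m hm => ?_)
      have : k ≠ m := fun hh => hk (hh ▸ mem_range.1 hm)
      simp [bv, this]
  · have h1 : a τ k = 0 := by
      by_contra hne
      exact hτ (h τ k hne).1
    rw [h1]
    symm
    refine Finset.sum_eq_zero (fun m _ => ?_)
    simp [bv, hτ]

theorem vec_eq_sum (hd0 : 0 < H.d 0) (w : List (Fin 3)) :
    vec (XW H) v0 w = ∑ m ∈ range (H.d (code w)),
      vec (XW H) v0 w (code w) m • bv (code w) m := by
  refine eq_sum_bv _ _ _ (fun τ k h => ?_)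
  obtain ⟨-, -, h3, -⟩ := vec_support H w τ k h
  refine ⟨h3, ?_⟩
  rw [← h3]
  exact vec_lt H hd0 w τ k h

theorem mapp_bv (n : ℕ) (M : ℕ → ℕ → ZMod 7) (β m τ k : ℕ) :
    mapp n M (bv β m τ) k = if τ = β ∧ m < n then M k m else 0 := by
  unfold mapp
  by_cases hτ : τ = β
  · by_cases hm : m < n
    · rw [if_pos ⟨hτ, hm⟩, Finset.sum_eq_single m]
      · simp [bv, hτ]
      · intro l _ hl
        simp [bv, hl]
      · intro h
        exact absurd (mem_range.2 hm) h
    · rw [if_neg (fun h => hm h.2)]
      refine Finset.sum_eq_zero (fun l hl => ?_)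
      have : l ≠ m := fun hh => hm (hh ▸ mem_range.1 hl)
      simp [bv, this]
  · rw [if_neg (fun h => hτ h.1)]
    refine Finset.sum_eq_zero (fun l _ => ?_)
    simp [bv, hτ]

theorem XW_bv (i : Fin 3) (β m τ k : ℕ) : XW H i (bv β m) τ k
    = if cX H.d i τ k = true ∧ τ - sh i = β ∧ m < H.d β then H.x i β k m else 0 := by
  unfold XW
  rw [bop_apply, mapp_bv]
  by_cases hc : cX H.d i τ k = true
  · rw [if_pos hc]
    by_cases h : τ - sh i = β
    · subst h
      simp [hc]
    · simp [h]
  · simp [hc]

theorem EW_bv (e : Fin 3 → Fin 3 → ℕ → ℕ → ℕ → ZMod 7) (i j : Fin 3) (β m τ k : ℕ) :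
    EW H e i j (bv β m) τ k
      = if cE H.d i j τ k = true ∧ τ + sh j - sh i = β ∧ m < H.d β then e i j β k m else 0 := by
  unfold EW
  rw [bop_apply, mapp_bv]
  by_cases hc : cE H.d i j τ k = true
  · rw [if_pos hc]
    by_cases h : τ + sh j - sh i = β
    · subst h
      simp [hc]
    · simp [h]
  · simp [hc]

/-- basis form of `B` -/
theorem BW_bv_bv (μ p β m : ℕ) : BW H (bv μ p) (bv β m)
    = if (β < 343 ∧ dB β = 9) ∧ 342 - β = μ ∧ p < H.d μ ∧ m < H.d β then H.g β p m else 0 := by
  rw [BW_apply]
  by_cases hβ : β < 343 ∧ dB β = 9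
  · rw [Finset.sum_eq_single_of_mem β (mem_filter.2 ⟨mem_range.2 hβ.1, hβ.2⟩)]
    · by_cases hμ : 342 - β = μ
      · subst hμ
        by_cases hp : p < H.d (342 - β)
        · rw [Finset.sum_eq_single_of_mem p (mem_range.2 hp)]
          · by_cases hm : m < H.d β
            · rw [Finset.sum_eq_single_of_mem m (mem_range.2 hm)]
              · simp [bv, hβ, hp, hm]
              · intro l _ hl
                simp [bv, hl]
            · rw [if_neg (fun h => hm h.2.2.2)]
              refine Finset.sum_eq_zero (fun l hl => ?_)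
              have : l ≠ m := fun hh => hm (hh ▸ mem_range.1 hl)
              simp [bv, this]
          · intro l _ hl
            refine Finset.sum_eq_zero (fun q _ => ?_)
            simp [bv, hl]
        · rw [if_neg (fun h => hp h.2.2.1)]
          refine Finset.sum_eq_zero (fun l hl => Finset.sum_eq_zero (fun q _ => ?_))
          have : l ≠ p := fun hh => hp (hh ▸ mem_range.1 hl)
          simp [bv, this]
      · rw [if_neg (fun h => hμ h.2.1)]
        refine Finset.sum_eq_zero (fun l _ => Finset.sum_eq_zero (fun q _ => ?_))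
        simp [bv, hμ]
    · intro γ _ hγ
      refine Finset.sum_eq_zero (fun l _ => Finset.sum_eq_zero (fun q _ => ?_))
      simp [bv, hγ]
  · rw [if_neg (fun h => hβ h.1)]
    refine Finset.sum_eq_zero (fun γ hγ => ?_)
    have : γ ≠ β := by
      intro hh
      rw [hh, mem_filter, mem_range] at hγ
      exact hβ hγ
    refine Finset.sum_eq_zero (fun l _ => Finset.sum_eq_zero (fun q _ => ?_))
    simp [bv, this]

/-- `der` in terms of checks on basis vectors. -/
theorem fH_der_of_basis (hd0 : 0 < H.d 0) (e : Fin 3 → Fin 3 → ℕ → ℕ → ℕ → ZMod 7)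
    (i j : Fin 3)
    (h1 : ∀ β < 343, dB β < 9 → ∀ m < H.d β, ∀ k,
      EW H e i j (XW H k (bv β m))
        = XW H k (EW H e i j (bv β m)) + if k = j then XW H i (bv β m) else 0)
    (h2 : ∀ μ < 343, dB μ = 9 → ∀ p < H.d μ, ∀ β < 343, dB β = 9 → ∀ m < H.d β,
      BW H (EW H e i j (bv μ p)) (bv β m) + BW H (bv μ p) (EW H e i j (bv β m)) = 0)
    (w : List (Fin 3)) : der i j w (fH H) = 0 := by
  refine hf_der (XW H) v0 (BW H) 9 i j (EW H e i j) ?_ ?_ ?_ w
  · funext τ k
    unfold EW
    rw [bop_apply]
    by_cases hc : cE H.d i j τ k = true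
    · rw [if_pos hc]
      unfold cE at hc
      simp only [Bool.and_eq_true, decide_eq_true_eq] at hc
      obtain ⟨⟨⟨⟨hb, hd⟩, -⟩, -⟩, -⟩ := hc
      have hle := (dg_facts τ hb i hd).1
      have hj : 0 < sh j := by fin_cases j <;> simp [sh]
      have : v0 (τ + sh j - sh i) = 0 := by
        funext l
        change (if τ + sh j - sh i = 0 ∧ l = 0 then (1 : ZMod 7) else 0) = 0
        rw [if_neg]
        rintro ⟨h, -⟩
        omega
      rw [this]
      unfold mapp
      refine Finset.sum_eq_zero (fun l _ => ?_)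
      simp
    · rw [if_neg hc]
      rfl
  · intro k w hw
    by_cases hz : vec (XW H) v0 w = 0
    · rw [hz]
      simp
    · have hsum := vec_eq_sum H hd0 w
      have hβ : code w < 343 ∧ dB (code w) < 9 := by
        have : ∃ τ k, vec (XW H) v0 w τ k ≠ 0 := by
          by_contra hne
          push Not at hne
          exact hz (funext fun τ => funext fun k => hne τ k)
        obtain ⟨τ, k, h⟩ := this
        obtain ⟨h1, h2, h3, -⟩ := vec_support H w τ k h
        rw [← h3]
        exact ⟨h1, by rw [← length_eq_dg w τ h2]; exact hw⟩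
      rw [hsum]
      simp only [map_sum, map_smul]
      by_cases hk : k = j
      · rw [if_pos hk, ← Finset.sum_add_distrib]
        refine Finset.sum_congr rfl (fun m hm => ?_)
        rw [h1 _ hβ.1 hβ.2 m (mem_range.1 hm) k, if_pos hk, smul_add]
      · rw [if_neg hk, add_zero]
        refine Finset.sum_congr rfl (fun m hm => ?_)
        rw [h1 _ hβ.1 hβ.2 m (mem_range.1 hm) k, if_neg hk, add_zero]
  · intro u v hu hv
    by_cases hzu : vec (XW H) v0 u = 0
    · rw [hzu]; simp
    by_cases hzv : vec (XW H) v0 v = 0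
    · rw [hzv]; simp
    have key : ∀ w : List (Fin 3), w.length = 9 → vec (XW H) v0 w ≠ 0 →
        code w < 343 ∧ dB (code w) = 9 := by
      intro w hw hz
      have : ∃ τ k, vec (XW H) v0 w τ k ≠ 0 := by
        by_contra hne
        push Not at hne
        exact hz (funext fun τ => funext fun k => hne τ k)
      obtain ⟨τ, k, h⟩ := this
      obtain ⟨h1, h2, h3, -⟩ := vec_support H w τ k h
      rw [← h3]
      exact ⟨h1, by rw [← length_eq_dg w τ h2]; exact hw⟩
    obtain ⟨hu1, hu2⟩ := key u hu hzu
    obtain ⟨hv1, hv2⟩ := key v hv hzv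
    rw [vec_eq_sum H hd0 u, vec_eq_sum H hd0 v]
    simp only [map_sum, map_smul, LinearMap.sum_apply, LinearMap.smul_apply]
    rw [← Finset.sum_add_distrib]
    refine Finset.sum_eq_zero (fun m hm => ?_)
    rw [← smul_add, ← Finset.sum_add_distrib]
    rw [Finset.sum_eq_zero, smul_zero]
    intro p hp
    rw [← smul_add, h2 _ hu1 hu2 p (mem_range.1 hp) _ hv1 hv2 m (mem_range.1 hm), smul_zero]

end Pool.Agent.Work.MP_bde882_al.H87
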