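import Mathlib

/-!
Half model: a functional on words of length `2 n` given by operators `X i` on a space `W`
(degrees `0..n`), a start vector `v0` and a symmetric form `B` on the degree `n` part:
`f (u ++ v) = B (vec u.reverse) (vec v)` for words `u`, `v` of length `n`.
-/

set_option autoImplicit false

namespace Pool.Agent.Work.MP_bde882_al.H87

section der

variable {α R : Type*} [DecidableEq α] [AddCommMonoid R]

/-- Sum, over the positions of the word which carry the letter `j`, of the value of `g` at the word
with that letter replaced by `i`. -/
def der (i j : α) : List α → (List α → R) → R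
  | [], _ => 0
  | a :: w, g => (if a = j then g (i :: w) else 0) + der i j w (fun r => g (a :: r))

theorem der_append (i j : α) (u v : List α) (g : List α → R) :
    der i j (u ++ v) g = der i j u (fun r => g (r ++ v)) + der i j v (fun r => g (u ++ r)) := by
  induction u generalizing g with
  | nil => simp [der]
  | cons a u ih =>
    simp only [List.cons_append, der, ih, add_assoc]

theorem der_congr (i j : α) (w : List α) (g h : List α → R)
    (H : ∀ r, r.length = w.length → g r = h r) : der i j w g = der i j w h := by
  induction w generalizing g h with
  | nil => rfl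
  | cons a w ih =>
    simp only [der]
    rw [H (i :: w) (by simp), ih (fun r => g (a :: r)) (fun r => h (a :: r))]
    intro r hr
    exact H _ (by simp [hr])

theorem der_zero (i j : α) (w : List α) : der i j w (fun _ => (0 : R)) = 0 := by
  induction w with
  | nil => rfl
  | cons a w ih => simp [der, ih]

theorem der_reverse (i j : α) (w : List α) (g : List α → R) :
    der i j w.reverse g = der i j w (fun r => g r.reverse) := by
  induction w generalizing g with
  | nil => rfl
  | cons a w ih =>
    rw [List.reverse_cons, der_append, ih]
    simp only [der, List.reverse_cons, add_zero]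
    rw [add_comm]

end der

section half

variable {F W α : Type*} [CommRing F] [AddCommGroup W] [Module F W]

/-- The vector of a word: the letters act from the right end of the word to the left. -/
def vec (X : α → W →ₗ[F] W) (v0 : W) : List α → W
  | [] => v0
  | i :: w => X i (vec X v0 w)

/-- The functional on words of length `2 n` given by the half model. -/
def hf (X : α → W →ₗ[F] W) (v0 : W) (B : W →ₗ[F] W →ₗ[F] F) (n : ℕ) (w : List α) : F :=
  if w.length = 2 * n then B (vec X v0 (w.take n).reverse) (vec X v0 (w.drop n)) else 0

variable (X : α → W →ₗ[F] W) (v0 : W) (B : W →ₗ[F] W →ₗ[F] F) (n : ℕ)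

theorem hf_eq_zero {w : List α} (h : w.length ≠ 2 * n) : hf X v0 B n w = 0 := by
  unfold hf
  rw [if_neg h]

theorem hf_append {u v : List α} (hu : u.length = n) (hv : v.length = n) :
    hf X v0 B n (u ++ v) = B (vec X v0 u.reverse) (vec X v0 v) := by
  unfold hf
  rw [if_pos (by rw [List.length_append, hu, hv, two_mul]), List.take_left' hu,
    List.drop_left' hu]

theorem exists_split {w : List α} (h : w.length = 2 * n) :
    ∃ u v : List α, u.length = n ∧ v.length = n ∧ w = u ++ v :=
  ⟨w.take n, w.drop n, by rw [List.length_take]; omega, by rw [List.length_drop]; omega,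
    (List.take_append_drop n w).symm⟩

/-- The functional is invariant under reversal of words. -/
theorem hf_reverse
    (hB : ∀ u v : List α, u.length = n → v.length = n →
      B (vec X v0 u) (vec X v0 v) = B (vec X v0 v) (vec X v0 u)) (w : List α) :
    hf X v0 B n w.reverse = hf X v0 B n w := by
  by_cases h : w.length = 2 * n
  · obtain ⟨u, v, hu, hv, rfl⟩ := exists_split n h
    rw [List.reverse_append, hf_append X v0 B n (by simpa using hv) (by simpa using hu),
      hf_append X v0 B n hu hv, List.reverse_reverse,
      hB v u.reverse hv (by simpa using hu)]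
  · rw [hf_eq_zero X v0 B n h, hf_eq_zero X v0 B n (by simpa using h)]

/-- The functional vanishes on words of the wrong content. -/
theorem hf_content [DecidableEq α] (c : α → ℕ)
    (hc : ∀ u v : List α, u.length = n → v.length = n → (∃ i, u.count i + v.count i ≠ c i) →
      B (vec X v0 u) (vec X v0 v) = 0) (w : List α) (hw : ∃ i, w.count i ≠ c i) :
    hf X v0 B n w = 0 := by
  by_cases h : w.length = 2 * n
  · obtain ⟨u, v, hu, hv, rfl⟩ := exists_split n h
    rw [hf_append X v0 B n hu hv]
    refine hc _ _ (by simpa using hu) hv ?_
    obtain ⟨i, hi⟩ := hw
    refine ⟨i, ?_⟩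
    rwa [List.count_reverse, ← List.count_append]
  · exact hf_eq_zero X v0 B n h

section derivation

variable [DecidableEq α] (i j : α) (E : W →ₗ[F] W)

theorem der_vec (m : ℕ) (hE0 : E v0 = 0)
    (hEX : ∀ (k : α) (w : List α), w.length < m →
      E (X k (vec X v0 w)) = X k (E (vec X v0 w)) + if k = j then X i (vec X v0 w) else 0)
    {V : Type*} [AddCommGroup V] [Module F V] (L : W →ₗ[F] V)
    (w : List α) (hw : w.length ≤ m) :
    der i j w (fun r => L (vec X v0 r)) = L (E (vec X v0 w)) := by
  induction w generalizing L with
  | nil => simp [der, vec, hE0]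
  | cons a w ih =>
    simp only [der, vec]
    have h1 := ih (L.comp (X a)) (by simp only [List.length_cons] at hw; omega)
    simp only [LinearMap.comp_apply] at h1
    rw [h1, hEX a w (by simp only [List.length_cons] at hw; omega), map_add, add_comm]
    congr 1
    by_cases ha : a = j
    · rw [if_pos ha, if_pos ha]
    · rw [if_neg ha, if_neg ha, map_zero]

/-- The functional is killed by the derivation which replaces one letter `j` by `i`. -/
theorem hf_der (hE0 : E v0 = 0)
    (hEX : ∀ (k : α) (w : List α), w.length < n →
      E (X k (vec X v0 w)) = X k (E (vec X v0 w)) + if k = j then X i (vec X v0 w) else 0)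
    (hBE : ∀ u v : List α, u.length = n → v.length = n →
      B (E (vec X v0 u)) (vec X v0 v) + B (vec X v0 u) (E (vec X v0 v)) = 0)
    (w : List α) : der i j w (hf X v0 B n) = 0 := by
  by_cases h : w.length = 2 * n
  · obtain ⟨u, v, hu, hv, rfl⟩ := exists_split n h
    rw [der_append]
    have h1 : der i j u (fun r => hf X v0 B n (r ++ v))
        = der i j u (fun r => (B.flip (vec X v0 v)) (vec X v0 r.reverse)) := by
      refine der_congr i j u _ _ (fun r hr => ?_)
      rw [hf_append X v0 B n (hr.trans hu) hv]
      rfl
    have h2 : der i j v (fun r => hf X v0 B n (u ++ r))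
        = der i j v (fun r => (B (vec X v0 u.reverse)) (vec X v0 r)) := by
      refine der_congr i j v _ _ (fun r hr => ?_)
      rw [hf_append X v0 B n hu (hr.trans hv)]
    rw [h1, h2, ← der_reverse i j u (fun r => (B.flip (vec X v0 v)) (vec X v0 r)),
      der_vec X v0 i j E n hE0 hEX _ _ (by rw [List.length_reverse]; omega),
      der_vec X v0 i j E n hE0 hEX _ _ (by omega)]
    exact hBE _ _ (by simpa using hu) hv
  · rw [der_congr i j w _ (fun _ => 0), der_zero]
    intro r hr
    exact hf_eq_zero X v0 B n (by rw [hr]; exact h)

end derivation

section full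

/-- The full model: degrees `≤ n` are represented in `W`, degrees `> n` in the dual of `W`. -/
abbrev Full (F W : Type*) [CommRing F] [AddCommGroup W] [Module F W] : Type _ :=
  W × Module.Dual F W

/-- The action of a letter on the full model. -/
def XF (X : α → W →ₗ[F] W) (B : W →ₗ[F] W →ₗ[F] F) (i : α) : Full F W →ₗ[F] Full F W :=
  LinearMap.prod ((X i).comp (LinearMap.fst F W (Module.Dual F W)))
    ((Module.Dual.transpose (R := F) (X i)).comp
      (LinearMap.snd F W (Module.Dual F W)
        + B.flip.comp (LinearMap.fst F W (Module.Dual F W))))

theorem XF_fst (i : α) (m : Full F W) : (XF X B i m).1 = X i m.1 := rfl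

theorem XF_snd (i : α) (m : Full F W) (a : W) :
    (XF X B i m).2 a = m.2 (X i a) + B (X i a) m.1 := rfl

/-- The functional on words attached to an element of the full model. -/
def Psi : Full F W →ₗ[F] (List α → F) where
  toFun m u := (vec (fun i => XF X B i) m u).2 v0
  map_add' := by
    intro m m'
    funext u
    have h : ∀ u : List α, vec (fun i => XF X B i) (m + m') u
        = vec (fun i => XF X B i) m u + vec (fun i => XF X B i) m' u := by
      intro u
      induction u with
      | nil => rfl
      | cons a u ih => simp only [vec, ih, map_add]
    simp only [h, Pi.add_apply]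
    rfl
  map_smul' := by
    intro c m
    funext u
    have h : ∀ u : List α, vec (fun i => XF X B i) (c • m) u
        = c • vec (fun i => XF X B i) m u := by
      intro u
      induction u with
      | nil => rfl
      | cons a u ih => simp only [vec, ih, map_smul]
    simp only [h, Pi.smul_apply, RingHom.id_apply]
    rfl

theorem vec_append {V : Type*} [AddCommGroup V] [Module F V] (Y : α → V →ₗ[F] V) (m : V)
    (u v : List α) : vec Y m (u ++ v) = vec Y (vec Y m v) u := by
  induction u with
  | nil => rfl
  | cons a u ih => simp only [List.cons_append, vec, ih]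

/-- `Psi` intertwines the letters: `(X_i g) (u) = g (u ++ [i])`. -/
theorem Psi_X (i : α) (m : Full F W) (u : List α) :
    Psi X v0 B (XF X B i m) u = Psi X v0 B m (u ++ [i]) := by
  change (vec (fun i => XF X B i) (XF X B i m) u).2 v0
    = (vec (fun i => XF X B i) m (u ++ [i])).2 v0
  rw [vec_append]
  rfl

theorem vec_full_fst (m : Full F W) (u : List α) :
    (vec (fun i => XF X B i) m u).1 = vec X m.1 u := by
  induction u with
  | nil => rfl
  | cons a u ih => rw [vec, XF_fst, ih]; rfl

/-- Evaluation of the second component: sum over the positions of the cut. -/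
theorem vec_full_snd (m : Full F W) (u : List α) (a : W) :
    (vec (fun i => XF X B i) m u).2 a
      = m.2 (vec X a u.reverse) +
        ∑ k ∈ Finset.range u.length,
          B (vec X a (u.take (k + 1)).reverse) (vec X m.1 (u.drop (k + 1))) := by
  induction u generalizing a with
  | nil => simp [vec]
  | cons b u ih =>
    simp only [vec]
    rw [XF_snd, ih, vec_full_fst, List.length_cons, Finset.sum_range_succ']
    have e1 : vec X (X b a) u.reverse = vec X a (b :: u).reverse := by
      rw [List.reverse_cons, vec_append]
      rfl
    have e2 : ∀ k, vec X (X b a) (u.take (k + 1)).reverse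
        = vec X a ((b :: u).take (k + 1 + 1)).reverse := by
      intro k
      rw [List.take_succ_cons, List.reverse_cons, vec_append]
      rfl
    simp only [e1, e2, List.drop_succ_cons, List.take_succ_cons, List.take_zero,
      List.drop_zero, List.reverse_cons, List.reverse_nil, List.nil_append, zero_add]
    rw [← add_assoc]
    rfl

/-- The start vector of the full model gives the functional `hf`. -/
theorem Psi_start (hn : 0 < n)
    (hdeg : ∀ u v : List α, ¬ (u.length = n ∧ v.length = n) →
      B (vec X v0 u) (vec X v0 v) = 0) :
    Psi X v0 B (v0, 0) = hf X v0 B n := by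
  funext u
  change (vec (fun i => XF X B i) (v0, 0) u).2 v0 = _
  rw [vec_full_snd]
  rw [LinearMap.zero_apply, zero_add]
  by_cases h : u.length = 2 * n
  · unfold hf
    rw [if_pos h, Finset.sum_eq_single (n - 1)]
    · rw [Nat.sub_add_cancel hn]
    · intro k hk hkn
      refine hdeg _ _ (fun hh => hkn ?_)
      have h1 := hh.1
      rw [List.length_reverse, List.length_take] at h1
      rw [Finset.mem_range] at hk
      omega
    · intro hk
      rw [Finset.mem_range] at hk
      omega
  · rw [hf_eq_zero X v0 B n h]
    refine Finset.sum_eq_zero (fun k hk => hdeg _ _ (fun hh => h ?_))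
    have h1 := hh.1
    have h2 := hh.2
    rw [List.length_reverse, List.length_take] at h1
    rw [List.length_drop] at h2
    rw [Finset.mem_range] at hk
    omega

end full

end half

end Pool.Agent.Work.MP_bde882_al.H87
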