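import Pool.Agent.Work.MP_bde882_al_h64.TabGood

/-!
The tables of the letters on the levels `≥ 9`: transposes.
-/

set_option autoImplicit false

namespace Pool.Agent.Work.MP_bde882_al.H87

open Finset
open Pool.Agent.Work.MP_bde882_al.Pk
open Pool.Agent.Work.MP_bde882_al.TS64
open Pool.Agent.Work.MP_bde882_al.Fin8
open Pool.Agent.Work.MP_bde882_al.Pg62 (Tr Op Blk find tmask mdl apB trO)

/-! ### Programs -/

/-- columns side by side, at stride `K` -/
noncomputable def ntr (K : ℕ) (f : ℕ → ℕ) (R : ℕ) : ℕ :=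
  Nat.rec (motive := fun _ => ℕ) 0
    (fun k ih => Nat.add ih (Nat.shiftLeft (f k) (Nat.mul 18 (Nat.mul K k)))) R

/-- row `m` of the matrix with the columns of the number `x` (stride `K`, `R` columns) -/
noncomputable def rowT (K R m x : ℕ) : ℕ :=
  Nat.mod (Nat.land (Nat.shiftLeft x (Nat.mul 18 (Nat.sub (Nat.sub K 1) m))) (tmask 18 K R))
    (mdl 18 (Nat.sub K 1))

/-- the larger of two numbers, plus one -/
noncomputable def mx1 (a b : ℕ) : ℕ :=
  Bool.rec (motive := fun _ => ℕ) (Nat.succ a) (Nat.succ b) (Nat.ble a b)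

theorem mx1_ge (a b : ℕ) : a < mx1 a b ∧ b < mx1 a b := by
  unfold mx1
  cases h : Nat.ble a b with
  | true =>
    have := Nat.le_of_ble_eq_true h
    exact ⟨Nat.lt_succ_of_le this, Nat.lt_succ_self b⟩
  | false =>
    have : ¬ a ≤ b := fun hh => by
      rw [Nat.ble_eq_true_of_le hh] at h
      exact Bool.noConfusion h
    exact ⟨Nat.lt_succ_self a, Nat.lt_succ_of_lt (by omega)⟩

/-! ### Soundness of the transposition -/

theorem ntr_eq (K : ℕ) (f : ℕ → ℕ) (u : ℕ → ℕ → ℕ) (R : ℕ)
    (hf : ∀ k < R, f k = lanes 18 (u k) K) :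
    ntr K f R = lanes (18 * K) (fun k => lanes 18 (u k) K) R := by
  induction R with
  | zero => simp [ntr, lanes]
  | succ R ih =>
    have h1 : ntr K f (R + 1) = ntr K f R + Nat.shiftLeft (f R) (18 * (K * R)) := rfl
    rw [h1, ih (fun k hk => hf k (by omega)), H87.shl_eq, hf R (by omega), lanes_succ, mul_assoc]

theorem rowT_eq (K R m : ℕ) (u : ℕ → ℕ → ℕ) (hu : ∀ k < R, ∀ l, u k l + 1 < 2 ^ 18) (hm : m < K)
    (hR : R < K) :
    rowT K R m (lanes (18 * K) (fun k => lanes 18 (u k) K) R) = lanes 18 (fun k => u k m) R := by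
  have h1 : rowT K R m (lanes (18 * K) (fun k => lanes 18 (u k) K) R)
      = ((lanes (18 * K) (fun k => lanes 18 (u k) K) R * 2 ^ (18 * (K - 1 - m)))
        &&& tmask 18 K R) % (2 ^ (18 * (K - 1)) - 1) := by
    unfold rowT
    rw [H87.shl_eq]
    rfl
  have h2 : lanes (18 * K) (fun k => lanes 18 (u k) K) R
      = lanes 18 (fun p => u (p / K) (p % K)) (K * R) := by
    rw [lanes_blocks]
    refine lanes_congr _ (fun k _ => ?_)
    refine lanes_congr _ (fun l hl => ?_)
    rw [Nat.mul_add_div (by omega), Nat.div_eq_of_lt hl, add_zero, Nat.mul_add_mod,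
      Nat.mod_eq_of_lt hl]
  rw [h1, h2, lanes_shift_up, TS64.tmask_eq 18 K R (by norm_num) (by omega), land_topMask]
  · rw [lanes_congr (18 * K) (b := fun k => 2 ^ (18 * (K - 1)) * (fun k => u k m) k)
      (fun k _ => ?_), gather_spec 18 K R _ (by omega) (fun k hk => hu k hk m)]
    have e1 : K - 1 - m ≤ K * k + (K - 1) := by omega
    have e2 : K * k + (K - 1) - (K - 1 - m) = K * k + m := by omega
    rw [if_pos e1, e2, Nat.mul_add_div (by omega), Nat.div_eq_of_lt hm, add_zero,
      Nat.mul_add_mod, Nat.mod_eq_of_lt hm]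
  · omega
  · intro l hl
    split_ifs with h5
    · have h6 : (l - (K - 1 - m)) / K < R := Nat.div_lt_of_lt_mul (by omega)
      have := hu ((l - (K - 1 - m)) / K) h6 ((l - (K - 1 - m)) % K)
      omega
    · positivity

/-- a column of a table, any number of lanes -/
theorem col_lanes {DD : ℕ → ℕ} {s β t : ℕ} {tr : Tr} (h : Node DD s tr) (ht : t < DD β) (n : ℕ)
    (hn : DD (β + s) ≤ n) : col (find β tr) t = lanes 18 (fun r => mB (find β tr) r t) n := by
  cases e : find β tr with
  | no => exact (lanes_eq_zero_of 18 _ n (fun _ _ => rfl)).symm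
  | mk K N off ch =>
    obtain ⟨g, z⟩ := h β K N off ch e
    have htK : t < K := by rw [g.hK]; exact ht
    rw [col_spec K N off ch g.h1 g.hK2 g.hc t htK,
      lanes_cut 18 _ _ _ g.hr (fun i _ hi => z t htK i hi),
      lanes_cut 18 _ _ _ hn (fun i _ hi => z t htK i hi)]

theorem mB_le7 {DD : ℕ → ℕ} {s β : ℕ} {tr : Tr} (h : Node DD s tr) (r t : ℕ) :
    mB (find β tr) r t ≤ 7 := by
  cases e : find β tr with
  | no => exact Nat.zero_le _
  | mk K N off ch =>
    obtain ⟨g, -⟩ := h β K N off ch e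
    exact mB_le off ch g.hc g.hN0 r t

/-- entries and digits -/
theorem ent_eq_mB (b : Blk) (r t : ℕ) : ent b r t = (mB b r t : ZMod 7) := by
  cases b with
  | no => rw [ent_no]; exact Nat.cast_zero.symm
  | mk K N off ch =>
    rw [ent_mk, mB_mk]
    push_cast
    rfl

/-! ### The check -/

theorem dm_le430 : ∀ β < 343, dm β ≤ 430 := by
  decide +kernel

/-- levels `> 9`: `A` the block `β`, `B` the block `342 - β - s`, `n = dm β`, `R = dm (β + s)` -/
noncomputable def chk3 (n R : ℕ) (A B : Blk) : Bool :=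
  allN (fun t => Nat.beq (col A t) (rowT (mx1 n R) R t (ntr (mx1 n R) (col B) R))) n

/-- level `9`; `G` the Gram block `342 - β` -/
noncomputable def chk9 (n R : ℕ) (A B G : Blk) : Bool :=
  allN (fun t => zt18 (Nat.add (col A t) (Nat.mul 6 (rowT (mx1 n R) R t
    (ntr (mx1 n R) (fun k => apB H87.wcut 18 G (col B k)) R))))) n

theorem chk3_sound {a : Fin 3} {tr : Tr} (h : Node dm (sh a) tr) {β : ℕ} (hβ : β < 343)
    (ha : dg a β < 6)
    (hc : chk3 (dm β) (dm (β + sh a)) (find β tr) (find (342 - β - sh a) tr) = true) :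
    ∀ t < dm β, ∀ r < dm (β + sh a),
      mB (find β tr) r t = mB (find (342 - β - sh a) tr) t r := by
  obtain ⟨hup, hpos⟩ := dg_up β hβ a ha
  set β' := 342 - β - sh a with hβ'
  have e1 : β' = 342 - (β + sh a) := by omega
  have e2 : β' + sh a = 342 - β := by omega
  have hR : dm β' = dm (β + sh a) := by rw [e1, dm_symm _ hup]
  have hn : dm (β' + sh a) = dm β := by rw [e2, dm_symm _ hβ]
  intro t ht
  have h1 := allN_true hc t ht
  obtain ⟨k1, k2⟩ := mx1_ge (dm β) (dm (β + sh a))
  have h2 := Nat.eq_of_beq_eq_true h1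
  rw [col_lanes h ht _ le_rfl,
    ntr_eq (mx1 (dm β) (dm (β + sh a))) (col (find β' tr)) (fun k l => mB (find β' tr) l k) _
      (fun k hk => col_lanes h (by rw [hR]; exact hk) _ (by rw [hn]; omega)),
    rowT_eq _ _ _ _ (fun k _ l => by have := mB_le7 (β := β') h l k; norm_num; omega) (by omega)
      k2] at h2
  exact lanes_inj 18 (fun r _ => by have := mB_le7 (β := β) h r t; norm_num; omega)
    (fun r _ => by have := mB_le7 (β := β') h t r; norm_num; omega) h2

theorem chk9_sound {a : Fin 3} {tr tg : Tr} (h : Node dm (sh a) tr) (hg : Node dm 0 tg) {β : ℕ}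
    (hβ : β < 343) (ha : dg a β < 6)
    (hc : chk9 (dm β) (dm (β + sh a)) (find β tr) (find (342 - β - sh a) tr)
      (find (342 - β) tg) = true) :
    ∀ t < dm β, ∀ r < dm (β + sh a),
      (mB (find β tr) r t : ZMod 7)
        = ∑ l ∈ range (dm (342 - β)), (mB (find (342 - β) tg) t l : ZMod 7)
          * (mB (find (342 - β - sh a) tr) l r : ZMod 7) := by
  obtain ⟨hup, hpos⟩ := dg_up β hβ a ha
  set β' := 342 - β - sh a with hβ'
  have e1 : β' = 342 - (β + sh a) := by omega
  have e2 : β' + sh a = 342 - β := by omega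
  have hR : dm β' = dm (β + sh a) := by rw [e1, dm_symm _ hup]
  have hn : dm (β' + sh a) = dm β := by rw [e2, dm_symm _ hβ]
  have hle : dm β ≤ 430 := dm_le430 β hβ
  intro t ht r hr
  have h1 := allN_true hc t ht
  obtain ⟨k1, k2⟩ := mx1_ge (dm β) (dm (β + sh a))
  have hle2 : dm (β + sh a) ≤ 430 := dm_le430 _ hup
  -- the columns
  have hcol : ∀ k < dm (β + sh a), apB H87.wcut 18 (find (342 - β) tg) (col (find β' tr) k)
      = lanes 18 (fun m => ∑ l ∈ range (dm (342 - β)),
        mB (find (342 - β) tg) m l * mB (find β' tr) l k) (mx1 (dm β) (dm (β + sh a))) ∧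
      ∀ m, ∑ l ∈ range (dm (342 - β)), mB (find (342 - β) tg) m l * mB (find β' tr) l k
        ≤ 430 * 49 := by
    intro k hk
    have h3 := ap_col (β := β') (t := k) hg h (by rw [hR]; exact hk)
    rw [e2] at h3
    refine ⟨?_, h3.2⟩
    rw [h3.1]
    have hz : ∀ i, dm β ≤ i → ∑ l ∈ range (dm (342 - β)),
        mB (find (342 - β) tg) i l * mB (find β' tr) l k = 0 := by
      intro i hi
      cases e : find (342 - β) tg with
      | no => exact sum_eq_zero (fun l _ => Nat.zero_mul _)
      | mk K N off ch =>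
        obtain ⟨g, z⟩ := hg _ K N off ch e
        refine sum_eq_zero (fun l hl => ?_)
        rw [mem_range] at hl
        rw [z l (by rw [g.hK]; exact hl) i (by rw [add_zero, dm_symm β hβ]; exact hi),
          Nat.zero_mul]
    rw [lanes_cut 18 _ _ _ hle (fun i _ hi => hz i hi),
      lanes_cut 18 _ _ _ k1.le (fun i _ hi => hz i hi)]
  rw [col_lanes h ht _ hle2,
    ntr_eq (mx1 (dm β) (dm (β + sh a)))
      (fun k => apB H87.wcut 18 (find (342 - β) tg) (col (find β' tr) k))
      (fun k m => ∑ l ∈ range (dm (342 - β)),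
        mB (find (342 - β) tg) m l * mB (find β' tr) l k) _
      (fun k hk => (hcol k hk).1), rowT_eq _ _ _ _ (fun k hk l => ?_) (by omega) k2] at h1
  · set R := dm (β + sh a) with hRdef
    set S : ℕ → ℕ := fun k => ∑ l ∈ range (dm (342 - β)),
      mB (find (342 - β) tg) t l * mB (find β' tr) l k with hS
    have e3 : lanes 18 S R = lanes 18 (fun k => if k < R then S k else 0) 430 := by
      rw [lanes_cut 18 _ _ _ hle2 (fun i _ hi => if_neg (by omega))]
      exact lanes_congr _ (fun k hk => (if_pos hk).symm)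
    have h1' : zt18 (lanes 18 (fun r => mB (find β tr) r t) 430
        + 6 * lanes 18 S R) = true := h1
    rw [e3, lanes_const_mul, lanes_add] at h1'
    have h6 := zt18_true (fun i _ => ?_) h1' r (by omega)
    · rw [if_pos hr] at h6
      have h7 := (ZMod.natCast_eq_natCast_iff _ 0 7).2 h6
      push_cast at h7
      have h8 : (6 : ZMod 7) = -1 := by decide
      rw [h8, hS] at h7
      push_cast at h7
      linear_combination h7
    · have c1 := mB_le7 (β := β) h i t
      split_ifs with h9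
      · have c2 := (hcol i h9).2 t
        change _ + 6 * (∑ l ∈ range (dm (342 - β)),
          mB (find (342 - β) tg) t l * mB (find β' tr) l i) < _
        norm_num
        omega
      · norm_num
        omega
  · have := (hcol k hk).2 l
    norm_num
    omega

/-- the check of the block `β` of the letter with the code `s` -/
noncomputable def hiB (s : ℕ) (tr tg : Tr) (β : ℕ) : Bool :=
  Bool.rec (motive := fun _ => Bool) true
    (Bool.rec (motive := fun _ => Bool) true
      (Bool.rec (motive := fun _ => Bool)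
        (chk3 (dm β) (dm (Nat.add β s)) (find β tr) (find (Nat.sub (Nat.sub 342 β) s) tr))
        (chk9 (dm β) (dm (Nat.add β s)) (find β tr) (find (Nat.sub (Nat.sub 342 β) s) tr)
          (find (Nat.sub 342 β) tg))
        (Nat.beq (Nat.add (Nat.mod (Nat.div β 49) 7) (Nat.add (Nat.mod (Nat.div β 7) 7)
          (Nat.mod β 7))) 9))
      (Nat.ble 9 (Nat.add (Nat.mod (Nat.div β 49) 7) (Nat.add (Nat.mod (Nat.div β 7) 7)
          (Nat.mod β 7)))))
    (Nat.ble (Nat.mod (Nat.div β s) 7) 5)

/-- the blocks `lo, ..., lo + n - 1` -/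
noncomputable def hiR (s : ℕ) (tr tg : Tr) (lo n : ℕ) : Bool :=
  allN (fun i => hiB s tr tg (Nat.add lo i)) n

theorem dB_eq (β : ℕ) : dB β = β / 49 % 7 + (β / 7 % 7 + β % 7) := by
  change β / 49 % 7 + β / 7 % 7 + β / 1 % 7 = _
  rw [Nat.div_one, add_assoc]

theorem hiB_sound {a : Fin 3} {tr tg : Tr} {β : ℕ} (ha : dg a β < 6)
    (h9 : 9 ≤ dB β) (h : hiB (sh a) tr tg β = true) :
    (dB β = 9 → chk9 (dm β) (dm (β + sh a)) (find β tr) (find (342 - β - sh a) tr)
      (find (342 - β) tg) = true) ∧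
    (dB β ≠ 9 → chk3 (dm β) (dm (β + sh a)) (find β tr) (find (342 - β - sh a) tr) = true) := by
  have e0 : Nat.ble (Nat.mod (Nat.div β (sh a)) 7) 5 = true :=
    Nat.ble_eq_true_of_le (show β / sh a % 7 ≤ 5 from Nat.lt_succ_iff.1 ha)
  have e1 : Nat.add (Nat.mod (Nat.div β 49) 7) (Nat.add (Nat.mod (Nat.div β 7) 7)
      (Nat.mod β 7)) = dB β := (dB_eq β).symm
  unfold hiB at h
  rw [e0, e1, Nat.ble_eq_true_of_le h9] at h
  constructor
  · intro h10
    have e2 : Nat.beq (dB β) 9 = true := by rw [h10]; rfl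
    rw [e2] at h
    exact h
  · intro h10
    have e2 : Nat.beq (dB β) 9 = false := by
      cases e3 : Nat.beq (dB β) 9 with
      | false => rfl
      | true => exact absurd (Nat.eq_of_beq_eq_true e3) h10
    rw [e2] at h
    exact h

/-- **The tables of the letters.** -/
theorem letters_of {a : Fin 3} (hg : GramSymm HH) (hn : Node dm (sh a) (trO (tX a)))
    (hgn : Node dm 0 Tab.TG)
    (hc : ∀ β < 343, dg a β < 6 → 9 ≤ dB β →
      hiB (sh a) (trO (tX a)) Tab.TG β = true) :
    ∀ β < 343, dg a β < 6 → ∀ t < dm β, ∀ r < dm (β + sh a),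
      xh HH a β r t = (mB (find β (trO (tX a))) r t : ZMod 7) := by
  intro β hβ ha t ht r hr
  unfold xh
  by_cases h1 : dB β < 9
  · rw [if_pos h1, HH_x, ent_eq_mB]
  · rw [if_neg h1]
    obtain ⟨h9, h3⟩ := hiB_sound ha (by omega) (hc β hβ ha (by omega))
    by_cases h2 : dB β = 9
    · rw [if_pos h2, chk9_sound hn hgn hβ ha (h9 h2) t ht r hr]
      refine Finset.sum_congr rfl (fun l hl => ?_)
      rw [mem_range] at hl
      rw [hg β hβ h2 l hl t ht, HH_x, HH_g, ent_eq_mB, ent_eq_mB, mul_comm]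
    · rw [if_neg h2, HH_x, ent_eq_mB, chk3_sound hn hβ ha (h3 h2) t ht r hr]

theorem hiR_sound {s : ℕ} {tr tg : Tr} {lo n : ℕ} (h : hiR s tr tg lo n = true) :
    ∀ β, lo ≤ β → β < lo + n → hiB s tr tg β = true := by
  intro β h1 h2
  have h3 := allN_true h (β - lo) (by omega)
  have e : Nat.add lo (β - lo) = β := by
    change lo + (β - lo) = β
    omega
  rwa [e] at h3

end Pool.Agent.Work.MP_bde882_al.H87
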