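import Pool.Agent.Work.MP_bde882_al_h87.Widen
import Pool.Agent.Work.MP_bde882_al_h40.Mv2
import Pool.Agent.Work.MP_bde882_al_h62.Prog

/-!
Packed products with several columns at once: big lanes of `W * C` bits, each with `C` small lanes of
`W` bits.
-/

set_option autoImplicit false

namespace Pool.Agent.Work.MP_bde882_al.H87

open Finset Pool.Agent.Work.MP_bde882_al.Pk Pool.Agent.Work.MP_bde882_al.Pg62

/-! ### Programs -/

/-- one folding step of the residue modulo `2 ^ B - 1` -/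
def gatS (B j x : ℕ) : ℕ :=
  Nat.add (Nat.land x (Nat.sub (Nat.pow 2 (Nat.mul B (Nat.pow 2 j))) 1))
    (Nat.shiftRight x (Nat.mul B (Nat.pow 2 j)))

/-- the residue modulo `2 ^ B - 1`, after `J` folding steps -/
noncomputable def gat (B J x : ℕ) : ℕ :=
  Nat.rec (motive := fun _ => ℕ → ℕ) (fun x => Nat.mod x (Nat.sub (Nat.pow 2 B) 1))
    (fun j ih x => ih (gatS B j x)) J x

/-- `sum_(i < c) 2 ^ ((W C + W) i)` -/
def cnst (W C c : ℕ) : ℕ :=
  Nat.div (Nat.sub (Nat.pow 2 (Nat.mul (Nat.add (Nat.mul W C) W) c)) 1)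
    (Nat.sub (Nat.pow 2 (Nat.add (Nat.mul W C) W)) 1)

/-- `c` columns of a block from the column `t0` on -/
noncomputable def coB (W C : ℕ) (J : ℕ → ℕ → ℕ) (t0 c : ℕ) (b : Blk) : ℕ :=
  Blk.rec (motive := fun _ => ℕ) 0
    (fun K N off ch => gat (Nat.mul (Nat.mul W C) N) (J K N)
      (Nat.land (Nat.shiftLeft (Nat.mul (wcut (Nat.mul W C) ch off (Nat.mul K N)) (cnst W C c))
        (Nat.mul (Nat.mul W C) t0)) (tmask (Nat.mul W C) K N))) b

/-- a block applied to a packed family of `C` vectors -/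
noncomputable def apC (W C : ℕ) (J : ℕ → ℕ → ℕ) (b : Blk) (y : ℕ) : ℕ :=
  Blk.rec (motive := fun _ => ℕ) 0
    (fun K N off ch => gat (Nat.mul (Nat.mul W C) N) (J K N)
      (Nat.land (Nat.mul (wcut (Nat.mul W C) ch off (Nat.mul K N)) y)
        (tmask (Nat.mul W C) K N))) b

/-! ### Soundness -/

theorem gat_zero (B x : ℕ) : gat B 0 x = x % (2 ^ B - 1) := rfl

theorem gat_succ (B J x : ℕ) : gat B (J + 1) x = gat B J (gatS B J x) := rfl

theorem gat_eq (B J x : ℕ) : gat B J x = x % (2 ^ B - 1) := by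
  induction J generalizing x with
  | zero => exact gat_zero B x
  | succ J ih =>
    rw [gat_succ, ih]
    have h1 : gatS B J x = x % 2 ^ (B * 2 ^ J) + x / 2 ^ (B * 2 ^ J) := by
      unfold gatS
      rw [land_eq, shr_eq]
      rfl
    rw [h1]
    have h2 : 2 ^ (B * 2 ^ J) ≡ 1 [MOD (2 ^ B - 1)] := by
      have h3 : 2 ^ B ≡ 1 [MOD (2 ^ B - 1)] :=
        ((Nat.modEq_iff_dvd' (Nat.one_le_two_pow)).2 dvd_rfl).symm
      have h4 := h3.pow (2 ^ J)
      rwa [one_pow, ← pow_mul] at h4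
    have h5 : x % 2 ^ (B * 2 ^ J) + x / 2 ^ (B * 2 ^ J) ≡ x [MOD (2 ^ B - 1)] := by
      conv_rhs => rw [← Nat.mod_add_div x (2 ^ (B * 2 ^ J))]
      refine Nat.ModEq.add_left _ ?_
      have := h2.mul_right (x / 2 ^ (B * 2 ^ J))
      rw [one_mul] at this
      exact this.symm
    exact h5

theorem tmask_eq (W K N : ℕ) (hK : 1 ≤ K) (hW : 1 ≤ W) : tmask W K N = topMask W K N := by
  have h1 := topMask_spec W K N
  have h2 := lanes_const_eq (W * K) 1 N
  have hp : 1 < 2 ^ (W * K) := Nat.one_lt_two_pow (by positivity)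
  have h3 : (2 ^ (W * (K * N)) - 1) / (2 ^ (W * K) - 1) = lanes (W * K) (fun _ => 1) N := by
    rw [one_mul, mul_assoc] at h2
    rw [← h2]
    exact Nat.mul_div_cancel _ (by omega)
  have h4 : tmask W K N = (2 ^ W - 1) * ((2 ^ (W * (K * N)) - 1) / (2 ^ (W * K) - 1))
      * 2 ^ (W * (K - 1)) := by
    unfold tmask
    rw [shl_eq]
    rfl
  rw [h4, h3]
  unfold topMask
  rw [mul_comm (2 ^ W - 1), lanes_mul, lanes_mul]
  refine lanes_congr _ (fun i _ => ?_)
  rw [one_mul, Nat.sub_mul, one_mul, ← pow_add]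
  congr 2
  obtain ⟨q, rfl⟩ : ∃ q, K = q + 1 := ⟨K - 1, by omega⟩
  rw [Nat.add_sub_cancel]
  ring

theorem cnst_eq (W C c : ℕ) (hW : 1 ≤ W) : cnst W C c = lanes (W * C + W) (fun _ => 1) c := by
  have h2 := lanes_const_eq (W * C + W) 1 c
  have hp : 1 < 2 ^ (W * C + W) := Nat.one_lt_two_pow (by omega)
  change (2 ^ ((W * C + W) * c) - 1) / (2 ^ (W * C + W) - 1) = _
  rw [one_mul] at h2
  rw [← h2]
  exact Nat.mul_div_cancel _ (by omega)

/-- a family of `C` vectors with `n` coordinates: big lane = coordinate, small lane = vector -/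
def RepC (W C n b y : ℕ) (M : ℕ → ℕ → ZMod 7) : Prop :=
  ∃ a : ℕ → ℕ → ℕ, y = lanes (W * C) (fun r => lanes W (a r) C) n ∧
    ∀ r < n, ∀ j < C, a r j ≤ b ∧ ((a r j : ℕ) : ZMod 7) = M r j

theorem RepC.mono {W C n b b' y : ℕ} {M : ℕ → ℕ → ZMod 7} (h : RepC W C n b y M) (hb : b ≤ b') :
    RepC W C n b' y M := by
  obtain ⟨a, e, ha⟩ := h
  exact ⟨a, e, fun r hr j hj => ⟨(ha r hr j hj).1.trans hb, (ha r hr j hj).2⟩⟩

theorem RepC.congr {W C n b y : ℕ} {M M' : ℕ → ℕ → ZMod 7} (h : RepC W C n b y M)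
    (hM : ∀ r < n, ∀ j < C, M r j = M' r j) : RepC W C n b y M' := by
  obtain ⟨a, e, ha⟩ := h
  exact ⟨a, e, fun r hr j hj => ⟨(ha r hr j hj).1, (ha r hr j hj).2.trans (hM r hr j hj)⟩⟩

theorem lanes_zero_fun (W n : ℕ) : lanes W (fun _ => 0) n = 0 :=
  lanes_eq_zero_of W _ n (fun _ _ => rfl)

theorem RepC.zero (W C n : ℕ) (M : ℕ → ℕ → ZMod 7) (hM : ∀ r < n, ∀ j < C, M r j = 0) :
    RepC W C n 0 0 M := by
  refine ⟨fun _ _ => 0, ?_, fun r hr j hj => ⟨le_rfl, by rw [hM r hr j hj]; simp⟩⟩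
  simp only [lanes_zero_fun]

theorem RepC.add {W C n b b' y y' : ℕ} {M M' : ℕ → ℕ → ZMod 7} (h : RepC W C n b y M)
    (h' : RepC W C n b' y' M') : RepC W C n (b + b') (Nat.add y y') (fun r j => M r j + M' r j) := by
  obtain ⟨a, e, ha⟩ := h
  obtain ⟨a', e', ha'⟩ := h'
  refine ⟨fun r j => a r j + a' r j, ?_, ?_⟩
  · rw [e, e']
    refine (lanes_add (W * C) _ _ n).trans ?_
    refine lanes_congr _ (fun r _ => ?_)
    rw [lanes_add]
  · intro r hr j hj
    refine ⟨Nat.add_le_add (ha r hr j hj).1 (ha' r hr j hj).1, ?_⟩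
    push_cast
    rw [(ha r hr j hj).2, (ha' r hr j hj).2]

theorem RepC.smul {W C n b y : ℕ} {M : ℕ → ℕ → ZMod 7} (c : ℕ) (h : RepC W C n b y M) :
    RepC W C n (c * b) (Nat.mul c y) (fun r j => (c : ZMod 7) * M r j) := by
  obtain ⟨a, e, ha⟩ := h
  refine ⟨fun r j => c * a r j, ?_, ?_⟩
  · rw [e]
    refine (lanes_const_mul (W * C) _ n c).trans ?_
    refine lanes_congr _ (fun r _ => ?_)
    rw [lanes_const_mul]
  · intro r hr j hj
    refine ⟨Nat.mul_le_mul_left _ (ha r hr j hj).1, ?_⟩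
    push_cast
    rw [(ha r hr j hj).2]

/-- more coordinates, all zero -/
theorem RepC.extend {W C n n' b y : ℕ} {M : ℕ → ℕ → ZMod 7} (h : RepC W C n b y M) (hn : n ≤ n')
    (h0 : ∀ r, n ≤ r → r < n' → ∀ j < C, M r j = 0) : RepC W C n' b y M := by
  obtain ⟨a, e, ha⟩ := h
  refine ⟨fun r j => if r < n then a r j else 0, ?_, ?_⟩
  · obtain ⟨m, rfl⟩ : ∃ m, n' = n + m := ⟨n' - n, by omega⟩
    rw [lanes_split, lanes_eq_zero_of _ _ m, mul_zero, add_zero, e]
    · refine lanes_congr _ (fun r hr => ?_)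
      exact lanes_congr _ (fun j _ => (if_pos hr).symm)
    · intro r _
      exact lanes_eq_zero_of _ _ _ (fun j _ => if_neg (by omega))
  · intro r hr j hj
    dsimp only
    by_cases h1 : r < n
    · rw [if_pos h1]
      exact ha r h1 j hj
    · rw [if_neg h1, h0 r (by omega) hr j hj]
      simp

/-- fewer coordinates, if the dropped small lanes are zero -/
theorem RepC.restrict {W C n n' b y : ℕ} {M : ℕ → ℕ → ZMod 7} (h : RepC W C n b y M)
    (hn : n' ≤ n) (hb : b < 7) (h0 : ∀ r, n' ≤ r → r < n → ∀ j < C, M r j = 0) :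
    RepC W C n' b y M := by
  obtain ⟨a, e, ha⟩ := h
  refine ⟨a, ?_, fun r hr => ha r (by omega)⟩
  obtain ⟨m, rfl⟩ : ∃ m, n = n' + m := ⟨n - n', by omega⟩
  rw [lanes_split, lanes_eq_zero_of _ _ m, mul_zero, add_zero] at e
  · exact e
  · intro r hr
    refine lanes_eq_zero_of _ _ _ (fun j hj => ?_)
    obtain ⟨h1, h2⟩ := ha (n' + r) (by omega) j hj
    rw [h0 (n' + r) (by omega) (by omega) j hj] at h2
    have h3 := (ZMod.natCast_eq_zero_iff (a (n' + r) j) 7).1 h2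
    exact Nat.eq_zero_of_dvd_of_lt h3 (by omega)

/-- all small lanes in one sequence -/
theorem RepC.flat {W C n b y : ℕ} {M : ℕ → ℕ → ZMod 7} (h : RepC W C n b y M) (hC : 0 < C) :
    Rep W (C * n) b y (fun l => M (l / C) (l % C)) := by
  obtain ⟨a, e, ha⟩ := h
  refine ⟨fun l => a (l / C) (l % C), ?_, ?_⟩
  · rw [e, lanes_blocks]
    refine lanes_congr _ (fun r _ => ?_)
    refine lanes_congr _ (fun j hj => ?_)
    rw [Nat.mul_add_div hC, Nat.div_eq_of_lt hj, add_zero, Nat.mul_add_mod, Nat.mod_eq_of_lt hj]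
  · intro l hl
    have h1 : l / C < n := Nat.div_lt_of_lt_mul hl
    exact ha _ h1 _ (Nat.mod_lt _ hC)

/-- **Zero test.** -/
theorem RepC.eq_zero {W C n b y : ℕ} {M : ℕ → ℕ → ZMod 7} (h : RepC W C n b y M) (hC : 0 < C)
    (hW : 3 ≤ W) (hb : b < 2 ^ W)
    (ht : ztest (lanes W (fun _ => 2 ^ W - 2 ^ (W - 3)) (C * n)) y = true) :
    ∀ r < n, ∀ j < C, M r j = 0 := by
  have h1 := (h.flat hC).eq_zero hW hb ht
  intro r hr j hj
  have h2 := h1 (C * r + j) (by
    have : C * (r + 1) ≤ C * n := Nat.mul_le_mul_left _ hr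
    rw [Nat.mul_succ] at this
    omega)
  rwa [Nat.mul_add_div hC, Nat.div_eq_of_lt hj, add_zero, Nat.mul_add_mod, Nat.mod_eq_of_lt hj] at h2

theorem lanes_le_top (W C b : ℕ) (a : ℕ → ℕ) (hC : 0 < C) (hb : b < 2 ^ W) (ha : ∀ j < C, a j ≤ b) :
    lanes W a C ≤ (b + 1) * 2 ^ (W * (C - 1)) := by
  obtain ⟨q, rfl⟩ : ∃ q, C = q + 1 := ⟨C - 1, by omega⟩
  rw [Nat.add_sub_cancel, lanes_succ, Nat.add_mul, one_mul, add_comm]
  refine Nat.add_le_add (Nat.mul_le_mul_right _ (ha q (by omega))) ?_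
  exact le_of_lt (lanes_lt W a q (fun i hi => lt_of_le_of_lt (ha i (by omega)) hb))

/-- an inverse of the slot map -/
theorem slot_inv {K N : ℕ} (hc : Nat.Coprime K N) : ∃ g : ℕ → ℕ,
    (∀ r < N, g r < N ∧ slot K N (g r) = r) ∧ ∀ i < N, g (slot K N i) = i := by
  have hinv : ∀ j, ∃ i, j < N → (i < N ∧ slot K N i = j) := by
    intro j
    by_cases hj : j < N
    · have : j ∈ (range N).image (slot K N) := by
        rw [slot_image hc]
        exact mem_range.2 hj
      obtain ⟨i, hi, e⟩ := mem_image.1 this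
      exact ⟨i, fun _ => ⟨mem_range.1 hi, e⟩⟩
    · exact ⟨0, fun h => absurd h hj⟩
  choose g hg using hinv
  refine ⟨g, hg, fun i hi => ?_⟩
  have h1 := hg (slot K N i) (slot_lt (by omega))
  exact slot_inj hc (by simpa using h1.1) (by simpa using hi) h1.2

theorem sum_window {R : Type*} [AddCommMonoid R] (f : ℕ → R) (k t0 c : ℕ) (h : t0 + c ≤ k) :
    ∑ t ∈ range k, (if t0 ≤ t ∧ t < t0 + c then f t else 0) = ∑ i ∈ range c, f (t0 + i) := by
  obtain ⟨m, rfl⟩ : ∃ m, k = t0 + (c + m) := ⟨k - (t0 + c), by omega⟩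
  rw [sum_range_add, sum_range_add, sum_eq_zero (s := range t0), zero_add,
    sum_eq_zero (s := range m), add_zero]
  · refine sum_congr rfl (fun i hi => ?_)
    rw [mem_range] at hi
    rw [if_pos ⟨by omega, by omega⟩]
  · intro i _
    rw [if_neg (by omega)]
  · intro i hi
    rw [mem_range] at hi
    rw [if_neg (by omega)]

theorem mul_lanes_sum (W C k : ℕ) (m : ℕ → ℕ) (a : ℕ → ℕ → ℕ) :
    ∑ t ∈ range k, m t * lanes W (a t) C = lanes W (fun j => ∑ t ∈ range k, m t * a t j) C := by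
  unfold lanes
  simp only [mul_sum]
  rw [sum_comm]
  refine sum_congr rfl (fun j _ => ?_)
  rw [sum_mul]
  refine sum_congr rfl (fun t _ => ?_)
  ring

theorem wc_eq (W C : ℕ) : Nat.mul W C = W * C := rfl

theorem apC_mk (W C : ℕ) (J : ℕ → ℕ → ℕ) (K N off y : ℕ) (ch : List ℕ) (hK : 1 ≤ K) (hT : 1 ≤ W * C) :
    apC W C J (Blk.mk K N off ch) y
      = ((wcut (W * C) ch off (K * N) * y) &&& topMask (W * C) K N) % (2 ^ (W * C * N) - 1) := by
  change gat (W * C * N) (J K N) ((wcut (W * C) ch off (K * N) * y) &&& tmask (W * C) K N) = _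
  rw [gat_eq, tmask_eq _ _ _ hK hT]

theorem coB_mk (W C : ℕ) (J : ℕ → ℕ → ℕ) (t0 c K N off : ℕ) (ch : List ℕ) (hK : 1 ≤ K) (hT : 1 ≤ W * C) :
    coB W C J t0 c (Blk.mk K N off ch)
      = ((wcut (W * C) ch off (K * N) * (cnst W C c * 2 ^ (W * C * t0))) &&& topMask (W * C) K N)
        % (2 ^ (W * C * N) - 1) := by
  change gat (W * C * N) (J K N) (Nat.land (Nat.shiftLeft (wcut (W * C) ch off (K * N) * cnst W C c)
    (W * C * t0)) (tmask (W * C) K N)) = _
  rw [gat_eq, tmask_eq _ _ _ hK hT, shl_eq, mul_assoc]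
  rfl

/-- **Product with a family of vectors.** -/
theorem apC_spec {W C K N k b off y : ℕ} {J : ℕ → ℕ → ℕ} {ch : List ℕ} {M V : ℕ → ℕ → ZMod 7}
    (hW : 3 ≤ W) (hC : 0 < C) (hK : 1 ≤ K) (hk : k ≤ K) (hc : Nat.Coprime K N)
    (hd : ∀ p, dig ch p ≤ 6)
    (hM : ∀ i < N, ∀ t < k,
      ((dig ch (off + (K * i + (K - 1) - t)) : ℕ) : ZMod 7) = M (slot K N i) t)
    (hy : RepC W C k b y V) (hb : k * (6 * (b + 1)) + 1 < 2 ^ W) (hb' : b < 2 ^ W) :
    RepC W C N (k * (6 * b)) (apC W C J (Blk.mk K N off ch) y)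
      (fun r j => ∑ t ∈ range k, M r t * V t j) := by
  obtain ⟨g, hg, hgs⟩ := slot_inv hc
  obtain ⟨a, e, ha⟩ := hy
  have hT : 3 ≤ W * C := le_trans hW (Nat.le_mul_of_pos_right _ hC)
  refine ⟨fun r j => ∑ t ∈ range k, dig ch (off + (K * g r + (K - 1) - t)) * a t j, ?_, ?_⟩
  · rw [apC_mk _ _ _ _ _ _ _ _ hK (by omega), wcut_spec _ hT, e]
    have hbig : k * (6 * ((b + 1) * 2 ^ (W * (C - 1)))) + 1 < 2 ^ (W * C) := by
      have h1 : W * C = W * (C - 1) + W := by
        obtain ⟨q, rfl⟩ : ∃ q, C = q + 1 := ⟨C - 1, by omega⟩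
        rw [Nat.add_sub_cancel]
        ring
      rw [h1, pow_add]
      have h2 : 1 ≤ 2 ^ (W * (C - 1)) := Nat.one_le_two_pow
      calc k * (6 * ((b + 1) * 2 ^ (W * (C - 1)))) + 1
          = k * (6 * (b + 1)) * 2 ^ (W * (C - 1)) + 1 := by ring
        _ ≤ k * (6 * (b + 1)) * 2 ^ (W * (C - 1)) + 1 * 2 ^ (W * (C - 1)) := by
            rw [one_mul]
            exact Nat.add_le_add_left h2 _
        _ = (k * (6 * (b + 1)) + 1) * 2 ^ (W * (C - 1)) := (Nat.add_mul _ _ _).symm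
        _ < 2 ^ W * 2 ^ (W * (C - 1)) := Nat.mul_lt_mul_of_pos_right hb (by positivity)
        _ = 2 ^ (W * (C - 1)) * 2 ^ W := Nat.mul_comm _ _
    have h := mv_spec2 (W * C) K N k 6 ((b + 1) * 2 ^ (W * (C - 1))) (fun p => dig ch (off + p))
      (fun t => lanes W (a t) C) (fun r t => dig ch (off + (K * g r + (K - 1) - t))) hK hk hc
      (fun l _ => hd _)
      (fun t ht => lanes_le_top W C b (a t) hC hb' (fun j hj => (ha t ht j hj).1)) hbig
      (fun i hi t _ => by rw [hgs i hi])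
    rw [h]
    exact lanes_congr _ (fun r _ => mul_lanes_sum W C k _ a)
  · intro r hr j hj
    obtain ⟨h1, h2⟩ := hg r hr
    constructor
    · calc ∑ t ∈ range k, dig ch (off + (K * g r + (K - 1) - t)) * a t j
          ≤ ∑ _t ∈ range k, 6 * b := by
            refine sum_le_sum (fun t ht => ?_)
            exact Nat.mul_le_mul (hd _) (ha t (mem_range.1 ht) j hj).1
        _ = k * (6 * b) := by simp
    · push_cast
      refine sum_congr rfl (fun t ht => ?_)
      have ht := mem_range.1 ht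
      rw [hM _ h1 t ht, (ha t ht j hj).2, h2]

/-- **A family of columns.** -/
theorem coB_spec {W C K N k t0 c off : ℕ} {J : ℕ → ℕ → ℕ} {ch : List ℕ} {M : ℕ → ℕ → ZMod 7}
    (hW : 3 ≤ W) (hC : 0 < C) (hK : 1 ≤ K) (hk : k ≤ K) (hc : Nat.Coprime K N)
    (hd : ∀ p, dig ch p ≤ 6)
    (hM : ∀ i < N, ∀ t < k,
      ((dig ch (off + (K * i + (K - 1) - t)) : ℕ) : ZMod 7) = M (slot K N i) t)
    (hb : k * 6 + 1 < 2 ^ W) (hcC : c ≤ C) (ht0 : t0 + c ≤ k) :
    RepC W C N 6 (coB W C J t0 c (Blk.mk K N off ch))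
      (fun r j => if j < c then M r (t0 + j) else 0) := by
  obtain ⟨g, hg, hgs⟩ := slot_inv hc
  have hT : 3 ≤ W * C := le_trans hW (Nat.le_mul_of_pos_right _ hC)
  refine ⟨fun r j => if j < c then dig ch (off + (K * g r + (K - 1) - (t0 + j))) else 0, ?_, ?_⟩
  · rw [coB_mk _ _ _ _ _ _ _ _ _ hK (by omega), wcut_spec _ hT]
    -- the family of unit vectors
    have hE : cnst W C c * 2 ^ (W * C * t0)
        = lanes (W * C) (fun t => if t0 ≤ t ∧ t < t0 + c then 2 ^ (W * (t - t0)) else 0) k := by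
      rw [cnst_eq W C c (by omega)]
      unfold lanes
      have h1 : ∀ t ∈ range k, (if t0 ≤ t ∧ t < t0 + c then 2 ^ (W * (t - t0)) else 0)
          * 2 ^ (W * C * t) = if t0 ≤ t ∧ t < t0 + c then
            2 ^ (W * (t - t0)) * 2 ^ (W * C * t) else 0 := by
        intro t _
        split_ifs <;> simp
      rw [sum_congr rfl h1, sum_window _ k t0 c ht0, sum_mul]
      refine sum_congr rfl (fun i _ => ?_)
      rw [Nat.add_sub_cancel_left, one_mul, ← pow_add, ← pow_add]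
      congr 1
      ring
    rw [hE]
    have hbig : k * (6 * 2 ^ (W * (C - 1))) + 1 < 2 ^ (W * C) := by
      have h1 : W * C = W * (C - 1) + W := by
        obtain ⟨q, rfl⟩ : ∃ q, C = q + 1 := ⟨C - 1, by omega⟩
        rw [Nat.add_sub_cancel]
        ring
      rw [h1, pow_add]
      have h2 : 1 ≤ 2 ^ (W * (C - 1)) := Nat.one_le_two_pow
      calc k * (6 * 2 ^ (W * (C - 1))) + 1 = k * 6 * 2 ^ (W * (C - 1)) + 1 := by ring
        _ ≤ k * 6 * 2 ^ (W * (C - 1)) + 1 * 2 ^ (W * (C - 1)) := by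
            rw [one_mul]
            exact Nat.add_le_add_left h2 _
        _ = (k * 6 + 1) * 2 ^ (W * (C - 1)) := (Nat.add_mul _ _ _).symm
        _ < 2 ^ W * 2 ^ (W * (C - 1)) := Nat.mul_lt_mul_of_pos_right hb (by positivity)
        _ = 2 ^ (W * (C - 1)) * 2 ^ W := Nat.mul_comm _ _
    have h := mv_spec2 (W * C) K N k 6 (2 ^ (W * (C - 1))) (fun p => dig ch (off + p))
      (fun t => if t0 ≤ t ∧ t < t0 + c then 2 ^ (W * (t - t0)) else 0)
      (fun r t => dig ch (off + (K * g r + (K - 1) - t))) hK hk hc (fun l _ => hd _)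
      (fun t ht => by
        split_ifs with h1
        · refine Nat.pow_le_pow_right (by norm_num) (Nat.mul_le_mul_left _ (by omega))
        · exact Nat.zero_le _) hbig (fun i hi t _ => by rw [hgs i hi])
    rw [h]
    refine lanes_congr _ (fun r _ => ?_)
    have h1 : ∀ t ∈ range k, dig ch (off + (K * g r + (K - 1) - t))
        * (if t0 ≤ t ∧ t < t0 + c then 2 ^ (W * (t - t0)) else 0)
        = if t0 ≤ t ∧ t < t0 + c then
          dig ch (off + (K * g r + (K - 1) - t)) * 2 ^ (W * (t - t0)) else 0 := by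
      intro t _
      split_ifs <;> simp
    rw [sum_congr rfl h1, sum_window _ k t0 c ht0]
    unfold lanes
    obtain ⟨m, rfl⟩ : ∃ m, C = c + m := ⟨C - c, by omega⟩
    rw [sum_range_add, sum_eq_zero (s := range m), add_zero]
    · refine sum_congr rfl (fun i hi => ?_)
      rw [mem_range] at hi
      dsimp only
      rw [if_pos hi, Nat.add_sub_cancel_left]
    · intro i _
      dsimp only
      rw [if_neg (by omega), zero_mul]
  · intro r hr j hj
    obtain ⟨h1, h2⟩ := hg r hr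
    dsimp only
    by_cases hjc : j < c
    · rw [if_pos hjc, if_pos hjc]
      refine ⟨hd _, ?_⟩
      rw [hM _ h1 (t0 + j) (by omega), h2]
    · rw [if_neg hjc, if_neg hjc]
      simp

end Pool.Agent.Work.MP_bde882_al.H87
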