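import Pool.Agent.Work.MP_bde882_al_h87.MultiCol
import Pool.Agent.Work.MP_bde882_al_h87.Model
import Pool.Agent.Work.MP_bde882_al_red.Homog

/-!
The check of one block of the table of a right-normed word of length `≥ 2`.
-/

set_option autoImplicit false

namespace Pool.Agent.Work.MP_bde882_al.H87

open Finset Pool.Agent.Work.MP_bde882_al.Pk Pool.Agent.Work.MP_bde882_al.Pg62
open Pool.Agent.Work.MP_bde882_al.Fin8

/-! ### Right tables -/

/-- the block `b` is the table of the matrix `M` with `r` rows and `k` columns -/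
def BOk (k r : ℕ) (M : ℕ → ℕ → ZMod 7) (b : Blk) : Prop :=
  Blk.rec (motive := fun _ => Prop) (k = 0 ∨ r = 0)
    (fun K N off ch => 1 ≤ K ∧ k ≤ K ∧ r ≤ N ∧ N ≤ 512 ∧ Nat.Coprime K N ∧
      (∀ p, dig ch p ≤ 6) ∧ ∀ i < N, ∀ t < k,
        ((dig ch (off + (K * i + (K - 1) - t)) : ℕ) : ZMod 7)
          = if slot K N i < r then M (slot K N i) t else 0) b

theorem BOk_no (k r : ℕ) (M : ℕ → ℕ → ZMod 7) : BOk k r M Blk.no ↔ (k = 0 ∨ r = 0) := Iff.rfl

theorem BOk_mk (k r : ℕ) (M : ℕ → ℕ → ZMod 7) (K N off : ℕ) (ch : List ℕ) :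
    BOk k r M (Blk.mk K N off ch) ↔ (1 ≤ K ∧ k ≤ K ∧ r ≤ N ∧ N ≤ 512 ∧ Nat.Coprime K N ∧
      (∀ p, dig ch p ≤ 6) ∧ ∀ i < N, ∀ t < k,
        ((dig ch (off + (K * i + (K - 1) - t)) : ℕ) : ZMod 7)
          = if slot K N i < r then M (slot K N i) t else 0) := Iff.rfl

theorem BOk.congr {k r : ℕ} {M M' : ℕ → ℕ → ZMod 7} {b : Blk} (h : BOk k r M b)
    (hM : ∀ i < r, ∀ t < k, M i t = M' i t) : BOk k r M' b := by
  cases b with
  | no => exact h
  | mk K N off ch =>
    rw [BOk_mk] at h ⊢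
    obtain ⟨h1, h2, h3, h4, h5, h6, h7⟩ := h
    refine ⟨h1, h2, h3, h4, h5, h6, fun i hi t ht => ?_⟩
    rw [h7 i hi t ht]
    by_cases h8 : slot K N i < r
    · rw [if_pos h8, if_pos h8, hM _ h8 t ht]
    · rw [if_neg h8, if_neg h8]

/-- application of a right table to a family of vectors -/
theorem BOk.apC {W C k r b y n : ℕ} {J : ℕ → ℕ → ℕ} {M V : ℕ → ℕ → ZMod 7} {B : Blk}
    (h : BOk k r M B) (hW : 3 ≤ W) (hC : 0 < C) (hn : 512 ≤ n)
    (hy : RepC W C k b y V) (hb : k * (6 * (b + 1)) + 1 < 2 ^ W) (hb' : b < 2 ^ W) :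
    RepC W C n (k * (6 * b)) (H87.apC W C J B y)
      (fun i j => if i < r then ∑ t ∈ range k, M i t * V t j else 0) := by
  cases B with
  | no =>
    rw [BOk_no] at h
    refine (RepC.zero W C n _ ?_).mono (Nat.zero_le _)
    intro i _ j _
    rcases h with h | h
    · subst h
      simp
    · subst h
      simp
  | mk K N off ch =>
    rw [BOk_mk] at h
    obtain ⟨h1, h2, h3, h4, h5, h6, h7⟩ := h
    have h8 := apC_spec (J := J) hW hC h1 h2 h5 h6
      (M := fun i t => if i < r then M i t else 0) h7 hy hb hb'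
    have h9 : RepC W C N (k * (6 * b)) (H87.apC W C J (Blk.mk K N off ch) y)
        (fun i j => if i < r then ∑ t ∈ range k, M i t * V t j else 0) := by
      refine h8.congr (fun i _ j _ => ?_)
      by_cases h10 : i < r
      · rw [if_pos h10]
        exact sum_congr rfl (fun t _ => by rw [if_pos h10])
      · rw [if_neg h10]
        exact sum_eq_zero (fun t _ => by rw [if_neg h10, zero_mul])
    refine h9.extend (by omega) (fun i hi _ j _ => ?_)
    rw [if_neg (by omega)]

/-- columns of a right table -/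
theorem BOk.coB {W C k r t0 c : ℕ} {J : ℕ → ℕ → ℕ} {M : ℕ → ℕ → ZMod 7} {B : Blk}
    (h : BOk k r M B) (hW : 3 ≤ W) (hC : 0 < C) (hb : k * 6 + 1 < 2 ^ W) (hcC : c ≤ C)
    (ht0 : t0 + c ≤ k) :
    RepC W C r 6 (H87.coB W C J t0 c B) (fun i j => if j < c then M i (t0 + j) else 0) := by
  cases B with
  | no =>
    rw [BOk_no] at h
    refine (RepC.zero W C r _ ?_).mono (Nat.zero_le _)
    intro i hi j _
    rcases h with h | h
    · rw [if_neg (by omega)]
    · omega
  | mk K N off ch =>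
    rw [BOk_mk] at h
    obtain ⟨h1, h2, h3, h4, h5, h6, h7⟩ := h
    have h8 := coB_spec (J := J) hW hC h1 h2 h5 h6
      (M := fun i t => if i < r then M i t else 0) h7 hb hcC ht0
    refine (h8.restrict h3 (by norm_num) (fun i hi _ j _ => ?_)).congr (fun i hi j _ => ?_)
    · split_ifs
      · omega
      · rfl
      · rfl
    · by_cases hj : j < c
      · rw [if_pos hj, if_pos hj, if_pos hi]
      · rw [if_neg hj, if_neg hj]

/-- the raw entries of a table -/
theorem raw_coB {W C K N k t0 c off n : ℕ} {J : ℕ → ℕ → ℕ} {ch : List ℕ}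
    (hW : 3 ≤ W) (hC : 0 < C) (hK : 1 ≤ K) (hk : k ≤ K) (hN : N ≤ n) (hc : Nat.Coprime K N)
    (hd : ∀ p, dig ch p ≤ 6) (hb : k * 6 + 1 < 2 ^ W) (hcC : c ≤ C) (ht0 : t0 + c ≤ k) :
    RepC W C n 6 (H87.coB W C J t0 c (Blk.mk K N off ch))
      (fun i j => if j < c then ent (Blk.mk K N off ch) i (t0 + j) else 0) := by
  have h := coB_spec (J := J) (off := off) hW hC hK hk hc hd (M := ent (Blk.mk K N off ch))
    (fun i hi t _ => (ent_slot K N off ch hc i hi t).symm) hb hcC ht0
  refine h.extend hN (fun i hi _ j _ => ?_)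
  by_cases hj : j < c
  · rw [if_pos hj, ent_ge K N off ch i _ hi]
  · rw [if_neg hj]

/-! ### Digits at most 6 -/

/-- ones in `n` lanes of `W` bits -/
def onesD (W n : ℕ) : ℕ :=
  Nat.div (Nat.sub (Nat.pow 2 (Nat.mul W n)) 1) (Nat.sub (Nat.pow 2 W) 1)

theorem onesD_eq (W n : ℕ) (hW : 1 ≤ W) : onesD W n = lanes W (fun _ => 1) n := by
  have h := lanes_const_eq W 1 n
  rw [one_mul] at h
  have hp : 1 < 2 ^ W := Nat.one_lt_two_pow (by omega)
  change (2 ^ (W * n) - 1) / (2 ^ W - 1) = _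
  rw [← h]
  exact Nat.mul_div_cancel _ (by omega)

/-- ones in all lanes of 3 bits -/
def M1 : ℕ := onesD 3 4096

/-- no lane of 3 bits is equal to `7` -/
def no7P (x : ℕ) : Bool :=
  Nat.beq (Nat.land (Nat.land x (Nat.shiftRight x 1)) (Nat.land (Nat.shiftRight x 2) M1)) 0

/-- conjunction, the first argument first -/
def ad (a b : Bool) : Bool := Bool.rec (motive := fun _ => Bool) false b a

theorem ad_eq (a b : Bool) : ad a b = true ↔ a = true ∧ b = true := by
  cases a <;> cases b <;> simp [ad]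

noncomputable def no7 (l : List ℕ) : Bool :=
  List.rec (motive := fun _ => Bool) true (fun p _ ih => ad (no7P p) ih) l

theorem M1_eq : M1 = lanes 3 (fun _ => 1) 4096 := onesD_eq 3 4096 (by norm_num)

theorem no7P_spec (x : ℕ) (h : no7P x = true) (p : ℕ) (hp : p < 4096) : lane 3 x p ≤ 6 := by
  have h1 : ((x &&& (x >>> 1)) &&& ((x >>> 2) &&& M1)) = 0 := Nat.eq_of_beq_eq_true h
  by_contra h7
  have h8 : lane 3 x p = 7 := by
    have := lane_lt 3 x p
    omega
  have h9 : M1.testBit (3 * p) = true := by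
    have e : lane 3 M1 p = 1 := by
      rw [M1_eq]
      exact lane_lanes 3 _ 4096 p hp (fun _ _ => by norm_num)
    unfold lane at e
    rw [Nat.testBit_eq_decide_div_mod_eq]
    have : M1 / 2 ^ (3 * p) % 2 = 1 := by omega
    simp [this]
  have hb : ∀ i < 3, x.testBit (3 * p + i) = true := by
    intro i hi
    have e : (lane 3 x p).testBit i = true := by
      rw [h8]
      interval_cases i <;> decide
    unfold lane at e
    rw [Nat.testBit_mod_two_pow, Nat.testBit_div_two_pow] at e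
    simp only [Bool.and_eq_true, decide_eq_true_eq] at e
    rw [add_comm]
    exact e.2
  have h10 : (((x &&& (x >>> 1)) &&& ((x >>> 2) &&& M1))).testBit (3 * p) = true := by
    rw [Nat.testBit_and, Nat.testBit_and, Nat.testBit_and, Nat.testBit_shiftRight,
      Nat.testBit_shiftRight, h9]
    have e0 := hb 0 (by norm_num)
    have e1 := hb 1 (by norm_num)
    have e2 := hb 2 (by norm_num)
    rw [add_zero] at e0
    rw [e0, add_comm 1, e1, add_comm 2, e2]
    rfl
  rw [h1] at h10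
  simp at h10

theorem no7_spec (l : List ℕ) (h : no7 l = true) (p : ℕ) : dig l p ≤ 6 := by
  induction l generalizing p with
  | nil => rw [dig_nil]; omega
  | cons x l ih =>
    have h1 : ad (no7P x) (no7 l) = true := h
    rw [ad_eq] at h1
    by_cases hp : p < 4096
    · rw [dig_cons_lt x l p hp]
      exact no7P_spec x h1.1 p hp
    · obtain ⟨q, rfl⟩ : ∃ q, p = 4096 + q := ⟨p - 4096, by omega⟩
      rw [dig_cons_ge]
      exact ih h1.2 q

/-! ### The check of one block -/

/-- sizes -/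
noncomputable def szOk (k r K N : ℕ) : Bool :=
  ad (Nat.ble 1 K) (ad (Nat.ble k K) (ad (Nat.ble r N) (ad (Nat.ble N 512)
    (Nat.beq (Nat.gcd K N) 1))))

theorem szOk_spec (k r K N : ℕ) (h : szOk k r K N = true) :
    1 ≤ K ∧ k ≤ K ∧ r ≤ N ∧ N ≤ 512 ∧ Nat.Coprime K N := by
  unfold szOk at h
  rw [ad_eq, ad_eq, ad_eq, ad_eq] at h
  obtain ⟨h1, h2, h3, h4, h5⟩ := h
  exact ⟨Nat.le_of_ble_eq_true h1, Nat.le_of_ble_eq_true h2, Nat.le_of_ble_eq_true h3,
    Nat.le_of_ble_eq_true h4, Nat.eq_of_beq_eq_true h5⟩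

/-- number of folding steps -/
noncomputable def jOf (C K N : ℕ) : ℕ :=
  Bool.rec (motive := fun _ => ℕ) (Nat.succ (Nat.log2 K)) 0
    (Nat.ble (Nat.mul (Nat.mul K (Nat.mul N N)) (Nat.mul C C)) 3000000)

/-- the smaller of two numbers -/
noncomputable def mn (a b : ℕ) : ℕ := Bool.rec (motive := fun _ => ℕ) b a (Nat.ble a b)

theorem mn_eq (a b : ℕ) : mn a b = min a b := by
  unfold mn
  cases h : Nat.ble a b with
  | true =>
    have := Nat.le_of_ble_eq_true h
    change a = _
    omega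
  | false =>
    have : ¬ a ≤ b := fun hh => by
      rw [Nat.ble_eq_true_of_le hh] at h
      exact Bool.noConfusion h
    change b = _
    omega

/-- mask of the high three bits of 8192 lanes of 17 bits -/
def HM17 : ℕ := Nat.mul (Nat.sub (Nat.pow 2 17) (Nat.pow 2 14)) (onesD 17 8192)

theorem HMgen (W n a b : ℕ) (hW : 1 ≤ W) :
    Nat.mul (Nat.sub (Nat.pow 2 a) (Nat.pow 2 b)) (onesD W n)
      = lanes W (fun _ => 2 ^ a - 2 ^ b) n := by
  rw [onesD_eq W n hW]
  change (2 ^ a - 2 ^ b) * lanes W (fun _ => 1) n = _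
  rw [lanes_const_mul]
  refine lanes_congr _ (fun i _ => ?_)
  rw [mul_one]

theorem HM17_eq : HM17 = lanes 17 (fun _ => 2 ^ 17 - 2 ^ 14) 8192 := by
  unfold HM17
  rw [HMgen 17 8192 17 14 (by norm_num)]

/-- zero test -/
noncomputable def zt17 (y : ℕ) : Bool :=
  ad (Nat.beq (Nat.mod y 7) 0) (Nat.beq (Nat.land (Nat.div y 7) HM17) 0)

theorem zt17_eq (y n : ℕ) (hn : n = 8192) (h : zt17 y = true) :
    ztest (lanes 17 (fun _ => 2 ^ 17 - 2 ^ (17 - 3)) n) y = true := by
  have e : (17 : ℕ) - 3 = 14 := rfl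
  unfold zt17 at h
  rw [ad_eq, HM17_eq] at h
  unfold ztest
  rw [e, hn, h.1, h.2]
  rfl

/-- the test of the columns `C q, ..., C q + c - 1` -/
noncomputable def chunk (C n : ℕ) (bw bp xp bq xq : Blk) (q : ℕ) : Bool :=
  zt17 (Nat.add (coB 17 C (jOf C) (Nat.mul C q) (mn C (Nat.sub n (Nat.mul C q))) bw)
    (Nat.add (apC 17 C (jOf C) bq
        (coB 17 C (jOf C) (Nat.mul C q) (mn C (Nat.sub n (Nat.mul C q))) xq))
      (Nat.mul 6 (apC 17 C (jOf C) xp
        (coB 17 C (jOf C) (Nat.mul C q) (mn C (Nat.sub n (Nat.mul C q))) bp)))))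

/-- `g i` for all `i < n` -/
noncomputable def rng (n : ℕ) (g : ℕ → Bool) : Bool :=
  Nat.rec (motive := fun _ => Bool) true (fun i ih => ad (g i) ih) n

theorem rng_spec (n : ℕ) (g : ℕ → Bool) (h : rng n g = true) : ∀ i < n, g i = true := by
  induction n with
  | zero => intro i hi; omega
  | succ n ih =>
    have h1 : ad (g n) (rng n g) = true := h
    rw [ad_eq] at h1
    intro i hi
    rcases Nat.lt_succ_iff_lt_or_eq.1 hi with h2 | h2
    · exact ih h1.2 i h2
    · rw [h2]
      exact h1.1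

/-- the number of columns treated at once -/
noncomputable def cls (s : ℕ) : ℕ :=
  Bool.rec (motive := fun _ => ℕ)
    (Bool.rec (motive := fun _ => ℕ) 1 4 (Nat.ble s 5000)) 16 (Nat.ble s 700)

theorem cls_cases (s : ℕ) : cls s = 1 ∨ cls s = 4 ∨ cls s = 16 := by
  unfold cls
  cases Nat.ble s 700
  · cases Nat.ble s 5000
    · left; rfl
    · right; left; rfl
  · right; right; rfl

/-- the check of all columns -/
noncomputable def colChk (C n : ℕ) (bw bp xp bq xq : Blk) : Bool :=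
  rng (Nat.div (Nat.add n (Nat.sub C 1)) C) (chunk C n bw bp xp bq xq)

/-- the check of one block; `n`, `r`, `p`, `q` = dimensions of the source, the target and the two
intermediate blocks -/
noncomputable def blkChk (n r p q : ℕ) (bw bp xp bq xq : Blk) : Bool :=
  Blk.rec (motive := fun _ => Bool) (Bool.rec (motive := fun _ => Bool) (Nat.beq r 0) true
      (Nat.beq n 0))
    (fun K N _ ch => ad (szOk n r K N) (ad (no7 ch)
      (colChk (cls (Nat.mul r (Nat.add p q))) n bw bp xp bq xq))) bw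

theorem colChk_sound {C n r p q K N off : ℕ} {ch : List ℕ} {bp xp bq xq : Blk}
    {Mp Xp Mq Xq : ℕ → ℕ → ZMod 7}
    (hC : C = 1 ∨ C = 4 ∨ C = 16) (hK : 1 ≤ K) (hk : n ≤ K) (hN : N ≤ 512)
    (hc : Nat.Coprime K N) (hd : ∀ l, dig ch l ≤ 6)
    (hbp : BOk n p Mp bp) (hxp : BOk p r Xp xp) (hbq : BOk q r Mq bq) (hxq : BOk n q Xq xq)
    (hn : n ≤ 512) (hp : p ≤ 512) (hq : q ≤ 512)
    (h : colChk C n (Blk.mk K N off ch) bp xp bq xq = true) :
    ∀ i < N, ∀ t < n, ent (Blk.mk K N off ch) i t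
      = if i < r then ∑ s ∈ range p, Xp i s * Mp s t - ∑ s ∈ range q, Mq i s * Xq s t
        else 0 := by
  have hC0 : 0 < C := by omega
  have hCn : C * (8192 / C) = 8192 := by rcases hC with rfl | rfl | rfl <;> norm_num
  have hCn2 : 512 ≤ 8192 / C := by rcases hC with rfl | rfl | rfl <;> norm_num
  intro i hi t ht
  -- the chunk of `t`
  set q0 := t / C with hq0
  set j0 := t % C with hj0
  have hj0C : j0 < C := Nat.mod_lt _ hC0
  have htq : C * q0 + j0 = t := Nat.div_add_mod t C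
  have hq0n : q0 < (n + (C - 1)) / C := by
    rw [hq0, Nat.div_lt_iff_lt_mul hC0]
    have h1 : n ≤ (n + (C - 1)) / C * C := by
      have h2 := Nat.lt_div_mul_add hC0 (a := n + (C - 1))
      omega
    omega
  have h1 : chunk C n (Blk.mk K N off ch) bp xp bq xq q0 = true :=
    rng_spec _ _ h q0 hq0n
  unfold chunk at h1
  rw [mn_eq] at h1
  change zt17 (Nat.add (H87.coB 17 C (jOf C) (C * q0) (min C (n - C * q0)) (Blk.mk K N off ch))
    (Nat.add (H87.apC 17 C (jOf C) bq (H87.coB 17 C (jOf C) (C * q0) (min C (n - C * q0)) xq))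
      (Nat.mul 6 (H87.apC 17 C (jOf C) xp
        (H87.coB 17 C (jOf C) (C * q0) (min C (n - C * q0)) bp))))) = true at h1
  set c := min C (n - C * q0) with hc0
  have hcC : c ≤ C := Nat.min_le_left _ _
  have hcn : C * q0 + c ≤ n := by omega
  have hj0c : j0 < c := by omega
  have r1 := raw_coB (W := 17) (C := C) (K := K) (N := N) (k := n) (t0 := C * q0) (c := c)
    (off := off) (n := 8192 / C) (J := jOf C) (ch := ch) (by norm_num) hC0 hK hk (by omega) hc hd
    (by norm_num; omega) hcC hcn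
  have r2 := hxq.coB (W := 17) (C := C) (t0 := C * q0) (c := c) (J := jOf C) (by norm_num) hC0
    (by norm_num; omega) hcC hcn
  have r3 := hbq.apC (J := jOf C) (n := 8192 / C) (by norm_num) hC0 hCn2 r2
    (by norm_num; omega) (by norm_num)
  have r4 := hbp.coB (W := 17) (C := C) (t0 := C * q0) (c := c) (J := jOf C) (by norm_num) hC0
    (by norm_num; omega) hcC hcn
  have r5 := hxp.apC (J := jOf C) (n := 8192 / C) (by norm_num) hC0 hCn2 r4
    (by norm_num; omega) (by norm_num)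
  have r6 := r1.add (r3.add (r5.smul 6))
  have h2 := zt17_eq _ _ hCn h1
  have h3 := r6.eq_zero hC0 (by norm_num) (by norm_num; omega) h2 i (by omega) j0 hj0C
  simp only [if_pos hj0c] at h3
  rw [htq] at h3
  by_cases hir : i < r
  · rw [if_pos hir]
    simp only [if_pos hir] at h3
    have e6 : ((6 : ℕ) : ZMod 7) = -1 := by decide
    rw [e6] at h3
    linear_combination h3
  · rw [if_neg hir]
    simp only [if_neg hir] at h3
    simpa using h3

/-- **Soundness of the check of one block.** -/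
theorem blkChk_sound {n r p q : ℕ} {bw bp xp bq xq : Blk} {Mp Xp Mq Xq : ℕ → ℕ → ZMod 7}
    (hbp : BOk n p Mp bp) (hxp : BOk p r Xp xp) (hbq : BOk q r Mq bq) (hxq : BOk n q Xq xq)
    (hn : n ≤ 512) (hp : p ≤ 512) (hq : q ≤ 512)
    (h : blkChk n r p q bw bp xp bq xq = true) :
    BOk n r (fun i t => ∑ s ∈ range p, Xp i s * Mp s t - ∑ s ∈ range q, Mq i s * Xq s t) bw := by
  cases bw with
  | no =>
    rw [BOk_no]
    unfold blkChk at h
    cases h1 : Nat.beq n 0 with
    | true => exact Or.inl (Nat.eq_of_beq_eq_true h1)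
    | false =>
      rw [h1] at h
      exact Or.inr (Nat.eq_of_beq_eq_true h)
  | mk K N off ch =>
    have h' : ad (szOk n r K N) (ad (no7 ch)
      (colChk (cls (Nat.mul r (Nat.add p q))) n (Blk.mk K N off ch) bp xp bq xq)) = true := h
    rw [ad_eq, ad_eq] at h'
    obtain ⟨h1, h2, h3⟩ := h'
    obtain ⟨s1, s2, s3, s4, s5⟩ := szOk_spec _ _ _ _ h1
    have h6 := no7_spec ch h2
    have h7 := colChk_sound (cls_cases _) s1 s2 s4 s5 h6 hbp hxp hbq hxq hn hp hq h3
    rw [BOk_mk]
    refine ⟨s1, s2, s3, s4, s5, h6, fun i hi t ht => ?_⟩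
    rw [← ent_slot K N off ch s5 i hi t]
    exact h7 _ (slot_lt (by omega)) t ht

end Pool.Agent.Work.MP_bde882_al.H87
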