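import Pool.Agent.Work.MP_bde882_al_h87.TabStep

/-!
The check of the table of a word, all blocks.
-/

set_option autoImplicit false

namespace Pool.Agent.Work.MP_bde882_al.H87

open Finset Pool.Agent.Work.MP_bde882_al.Pk Pool.Agent.Work.MP_bde882_al.Pg62
open Pool.Agent.Work.MP_bde882_al.Fin8 Pool.Agent.Work.MP_bde882_al.H69

/-- the block of the content `(a, b, c)` -/
def cd3 (a b c : ℕ) : ℕ := Nat.add (Nat.mul 49 a) (Nat.add (Nat.mul 7 b) c)

/-- the check of the word `a :: w`: tables `tw`, `tp`, `tx` of `a :: w`, `w`, `[a]`; `s` = code of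
`w`, `x` = code of `a`; contents `< (u, v, z)` -/
noncomputable def wordChk (tw tp tx : Pg62.Tr) (s x u v z : ℕ) : Bool :=
  rng u (fun i => rng v (fun j => rng z (fun l =>
    blkChk (dm (cd3 i j l)) (dm (Nat.add (cd3 i j l) (Nat.add x s)))
      (dm (Nat.add (cd3 i j l) s)) (dm (Nat.add (cd3 i j l) x))
      (find (cd3 i j l) tw) (find (cd3 i j l) tp) (find (Nat.add (cd3 i j l) s) tx)
      (find (Nat.add (cd3 i j l) x) tp) (find (cd3 i j l) tx))))

/-- the operator `op` has the right table for the word `w` -/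
def TOk (w : List (Fin 3)) (op : Op) : Prop :=
  ∀ β < 343, (∀ i, dg i β + ct w i ≤ 6) →
    BOk (DH HH β) (DH HH (β + tgtW w)) (MO HH w β) (find β (trO op))

/-- the letter `a` has the right table -/
def XOk (a : Fin 3) (op : Op) : Prop :=
  ∀ β < 343, dg a β < 6 →
    BOk (DH HH β) (DH HH (β + sh a)) (xh HH a β) (find β (trO op))

theorem dm_le : ∀ β < 343, dm β ≤ 512 := by
  decide +kernel

theorem cd3_dg (β : ℕ) (hβ : β < 343) : cd3 (dg 0 β) (dg 1 β) (dg 2 β) = β := by
  have := code_of_dg β hβ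
  change 49 * dg 0 β + (7 * dg 1 β + dg 2 β) = β
  omega

/-- **The table of the word `a :: w` from the tables of `w` and `a`.** -/
theorem TOk_cons (a : Fin 3) (w : List (Fin 3)) (hw : w ≠ []) (tw tp tx : Op)
    (hp : TOk w tp) (hx : XOk a tx) (s x u v z : ℕ) (hs : s = tgtW w) (hxa : x = sh a)
    (hu : ∀ m, m + ct (a :: w) 0 ≤ 6 → m < u) (hv : ∀ m, m + ct (a :: w) 1 ≤ 6 → m < v)
    (hz : ∀ m, m + ct (a :: w) 2 ≤ 6 → m < z)
    (h : wordChk (trO tw) (trO tp) (trO tx) s x u v z = true) : TOk (a :: w) tw := by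
  intro β hβ hfit
  have h0 := hu _ (hfit 0)
  have h1 := hv _ (hfit 1)
  have h2 := hz _ (hfit 2)
  have h3 := rng_spec _ _ (rng_spec _ _ (rng_spec _ _ h _ h0) _ h1) _ h2
  rw [cd3_dg β hβ] at h3
  -- the blocks
  have hfit' : ∀ i, dg i β + ct w i + (Pi.single a 1 : Fin 3 → ℕ) i ≤ 6 := by
    intro i
    have := hfit i
    rw [ct_cons, Pi.add_apply] at this
    omega
  have hda : dg a β + ct w a + 1 ≤ 6 := by
    have := hfit' a
    rwa [Pi.single_eq_same] at this
  have hup := dg_up β hβ a (by omega)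
  have hdgup : ∀ i, dg i (β + sh a) = dg i β + (Pi.single a 1 : Fin 3 → ℕ) i := by
    intro i
    have := (dg_facts _ hup.1 a hup.2).2 i
    rw [Nat.add_sub_cancel] at this
    rw [this]
    congr 1
    by_cases h : i = a
    · subst h
      rw [if_pos rfl, Pi.single_eq_same]
    · rw [if_neg h, Pi.single_eq_of_ne h]
  have hw1 := blk_fit w β hβ (fun i => by have := hfit' i; omega)
  have hwa := blk_fit (a :: w) β hβ hfit
  have e1 : β + sh a + tgtW w = β + tgtW (a :: w) := by rw [tgtW_cons]; ring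
  have e2 : β + tgtW w + sh a = β + tgtW (a :: w) := by rw [tgtW_cons]; ring
  have e3 : Nat.add β (Nat.add x s) = β + tgtW (a :: w) := by
    change β + (x + s) = _
    rw [hs, hxa, ← e1, add_assoc]
  have e4 : Nat.add β s = β + tgtW w := by
    change β + s = _
    rw [hs]
  have e5 : Nat.add β x = β + sh a := by
    change β + x = _
    rw [hxa]
  rw [e3, e4, e5] at h3
  have b1 := hp β hβ (fun i => by have := hfit' i; omega)
  have b2 := hx (β + tgtW w) hw1.1 (by rw [hw1.2 a]; omega)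
  have b3 := hp (β + sh a) hup.1 (fun i => by rw [hdgup i]; have := hfit' i; omega)
  have b4 := hx β hβ (by omega)
  rw [e2] at b2
  rw [e1] at b3
  rw [DH_HH _ hβ] at *
  rw [DH_HH _ hwa.1] at *
  rw [DH_HH _ hw1.1] at *
  rw [DH_HH _ hup.1] at *
  have h5 := blkChk_sound b1 b2 b3 b4 (dm_le _ hβ) (dm_le _ hw1.1) (dm_le _ hup.1) h3
  refine h5.congr (fun i hi t ht => ?_)
  have h6 := MO_cons (H := HH) a w hw β i t hβ hfit (by rw [DH_HH _ hβ]; exact ht)
    (by rw [DH_HH _ hwa.1]; exact hi)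
  rw [DH_HH _ hw1.1, DH_HH _ hup.1] at h6
  exact h6.symm

/-- letters are words of length one -/
theorem XOk.tok {a : Fin 3} {op : Op} (h : XOk a op) : TOk [a] op := by
  intro β hβ hfit
  have h1 : dg a β < 6 := by
    have := hfit a
    have e : ct [a] a = 1 := by simp [ct]
    omega
  rw [tgtW_single]
  refine (h β hβ h1).congr (fun i hi t ht => ?_)
  exact (MO_single (H := HH) a β i t hβ h1 ht hi).symm

end Pool.Agent.Work.MP_bde882_al.H87
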